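import Pool.Agent.Q216.WL.Fam

/-!
The inclusion of `FLat ν κ A` in `FLat ν κ univ`, and automorphisms.
-/

namespace Pool.Agent.Q216.WL

open Cardinal

universe u

variable {κ μ : Type u} {ν : Cardinal.{u}}

/-- A swap. -/
theorem exists_swap (hν : ℵ₀ ≤ ν) {A T₀ T : Set μ} (hA : ν < #A) (h0 : #T₀ ≤ ν) (h0A : T₀ ⊆ A)
    (hT : #T ≤ ν) : ∃ π : μ → μ, Function.Involutive π ∧ (∀ x ∈ T₀, π x = x) ∧
      ∀ x ∈ T, π x ∈ A := by
  classical
  have hC : ν < #(A \ (T₀ ∪ T) : Set μ) := by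
    by_contra h
    rw [not_lt] at h
    have h1 : #((A \ (T₀ ∪ T)) ∪ (T₀ ∪ T) : Set μ) ≤ ν :=
      small_union hν h (small_union hν h0 hT)
    have h2 : A ⊆ (A \ (T₀ ∪ T)) ∪ (T₀ ∪ T) := by
      rw [Set.sdiff_union_self]
      exact Set.subset_union_left
    exact absurd ((mk_le_mk_of_subset h2).trans h1) hA.not_ge
  have hB : #(T \ A : Set μ) ≤ #(A \ (T₀ ∪ T) : Set μ) :=
    ((mk_le_mk_of_subset Set.sdiff_subset).trans hT).trans hC.le
  obtain ⟨f⟩ := Cardinal.le_def _ _ |>.1 hB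
  have hfC : ∀ b, (f b : μ) ∈ A \ (T₀ ∪ T) := fun b => (f b).2
  have hfB : ∀ b, (f b : μ) ∉ T \ A := fun b h => h.2 (hfC b).1
  let sw : μ → μ := fun x => if h : x ∈ T \ A then f ⟨x, h⟩ else
    if h' : ∃ b : (T \ A : Set μ), (f b : μ) = x then h'.choose else x
  have e1 : ∀ x (h : x ∈ T \ A), sw x = f ⟨x, h⟩ := fun x h => dif_pos h
  have e2 : ∀ b, sw (f b : μ) = b := fun b => by
    have h' : ∃ b' : (T \ A : Set μ), (f b' : μ) = f b := ⟨b, rfl⟩
    have : sw (f b : μ) = h'.choose := by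
      simp only [sw]
      rw [dif_neg (hfB b), dif_pos h']
    rw [this]
    exact congrArg _ (f.injective (Subtype.ext h'.choose_spec))
  have e3 : ∀ x, x ∉ T \ A → (¬ ∃ b : (T \ A : Set μ), (f b : μ) = x) → sw x = x := by
    intro x h h'
    simp only [sw]
    rw [dif_neg h, dif_neg h']
  refine ⟨sw, fun x => ?_, fun x hx => ?_, fun x hx => ?_⟩
  · by_cases h : x ∈ T \ A
    · rw [e1 x h, e2]
    · by_cases h' : ∃ b : (T \ A : Set μ), (f b : μ) = x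
      · obtain ⟨b, rfl⟩ := h'
        rw [e2, e1 b b.2]
      · rw [e3 x h h', e3 x h h']
  · refine e3 x (fun h => h.2 (h0A hx)) ?_
    rintro ⟨b, rfl⟩
    exact (hfC b).2 (Or.inl hx)
  · by_cases h : x ∈ T \ A
    · rw [e1 x h]
      exact (hfC _).1
    · have hxA : x ∈ A := by
        by_contra hxA
        exact h ⟨hx, hxA⟩
      rw [e3 x h ?_]
      · exact hxA
      · rintro ⟨b, rfl⟩
        exact (hfC b).2 (Or.inr hx)

theorem Ctl.act {S : Set κ} {T : Set μ} {x : κ → μ → Z → ℝ} (h : Ctl S T x) (π : μ → μ) :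
    Ctl S (π ⁻¹' T) fun α β => x α (π β) where
  c1 := fun α => by
    obtain ⟨c, hc, h0, h1⟩ := h.c1 α
    exact ⟨c, hc, h0, fun β hβ => h1 (π β) hβ⟩
  c2 := fun β => by
    obtain ⟨c, hc, h0, h1⟩ := h.c2 (π β)
    exact ⟨c, hc, h0, h1⟩
  c3 := by
    obtain ⟨e, he, h1⟩ := h.c3
    exact ⟨e, he, fun α hα β hβ => h1 α hα (π β) hβ⟩

theorem mk_preimage_invol {π : μ → μ} (hπ : Function.Involutive π) (T : Set μ) :
    #(π ⁻¹' T : Set μ) = #T := by
  refine mk_preimage_equiv (f := hπ.toPerm) T ▸ rfl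

/-- The action on families. -/
def Fam.act {A : Set μ} (x : Fam ν κ A) {π : μ → μ} (hπ : Function.Involutive π) (A' : Set μ)
    (h : ∃ (S : Set κ) (T : Set μ), #S ≤ ν ∧ #T ≤ ν ∧ π ⁻¹' T ⊆ A' ∧ Ctl S T x.1) :
    Fam ν κ A' :=
  ⟨fun α β => x.1 α (π β),
    { nonneg := fun α β z => x.2.nonneg α (π β) z
      mem := fun α β => x.2.mem α (π β)
      fin := x.2.fin.subset (by
        rintro _ ⟨p, rfl⟩
        exact ⟨(p.1, π p.2), rfl⟩)
      ctl := by
        obtain ⟨S, T, hS, hT, hA, hc⟩ := h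
        exact ⟨S, π ⁻¹' T, hS, (mk_preimage_invol hπ T).trans_le hT, hA, hc.act π⟩ }⟩

/-- The action on all families. -/
def Fam.actU (x : Fam ν κ (Set.univ : Set μ)) {π : μ → μ} (hπ : Function.Involutive π) :
    Fam ν κ (Set.univ : Set μ) := x.act hπ Set.univ (by
  obtain ⟨S, T, hS, hT, -, hc⟩ := x.2.ctl
  exact ⟨S, T, hS, hT, Set.subset_univ _, hc⟩)

theorem Fam.actU_actU (x : Fam ν κ (Set.univ : Set μ)) {π : μ → μ} (hπ : Function.Involutive π) :
    (x.actU hπ).actU hπ = x := by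
  refine Subtype.ext ?_
  funext α β
  show x.1 α (π (π β)) = x.1 α β
  rw [hπ β]

theorem Fam.actU_le {x y : Fam ν κ (Set.univ : Set μ)} {π : μ → μ} (hπ : Function.Involutive π)
    (h : x ≤ y) : x.actU hπ ≤ y.actU hπ := fun α β => h α (π β)

/-- The automorphism given by an involution of the set of columns. -/
def autIso [Fact (ℵ₀ ≤ ν)] {π : μ → μ} (hπ : Function.Involutive π) :
    FLat ν κ (Set.univ : Set μ) ≃o FLat ν κ (Set.univ : Set μ) where
  toFun := Quotient.map (fun x => x.actU hπ) fun _ _ h => ⟨Fam.actU_le hπ h.1, Fam.actU_le hπ h.2⟩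
  invFun := Quotient.map (fun x => x.actU hπ) fun _ _ h => ⟨Fam.actU_le hπ h.1, Fam.actU_le hπ h.2⟩
  left_inv := by
    rintro ⟨x⟩
    exact congrArg FLat.mk (x.actU_actU hπ)
  right_inv := by
    rintro ⟨x⟩
    exact congrArg FLat.mk (x.actU_actU hπ)
  map_rel_iff' := by
    rintro ⟨x⟩ ⟨y⟩
    constructor
    · intro h
      have h1 : x.actU hπ ≤ y.actU hπ := h
      have h2 := Fam.actU_le hπ h1
      rw [x.actU_actU, y.actU_actU] at h2
      exact h2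
    · intro h
      exact Fam.actU_le (x := x) (y := y) hπ h

theorem autIso_mk [Fact (ℵ₀ ≤ ν)] {π : μ → μ} (hπ : Function.Involutive π)
    (x : Fam ν κ (Set.univ : Set μ)) : autIso hπ (FLat.mk x) = FLat.mk (x.actU hπ) := rfl

/-- The inclusion of families. -/
def Fam.inc {A : Set μ} (x : Fam ν κ A) : Fam ν κ (Set.univ : Set μ) :=
  ⟨x.1, x.2.nonneg, x.2.mem, x.2.fin, by
    obtain ⟨S, T, hS, hT, -, hc⟩ := x.2.ctl
    exact ⟨S, T, hS, hT, Set.subset_univ _, hc⟩⟩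

/-- The inclusion of lattices. -/
noncomputable def inc [hν : Fact (ℵ₀ ≤ ν)] (A : Set μ) :
    LatticeHom (FLat ν κ A) (FLat ν κ (Set.univ : Set μ)) where
  toFun := Quotient.map (fun x => x.inc) fun _ _ h => ⟨h.1, h.2⟩
  map_sup' := by
    rintro ⟨x⟩ ⟨y⟩
    rfl
  map_inf' := by
    rintro ⟨x⟩ ⟨y⟩
    rfl

theorem inc_mk [hν : Fact (ℵ₀ ≤ ν)] {A : Set μ} (x : Fam ν κ A) :
    inc A (FLat.mk x) = FLat.mk x.inc := rfl

theorem inc_injective [hν : Fact (ℵ₀ ≤ ν)] (A : Set μ) :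
    Function.Injective (inc (ν := ν) (κ := κ) A) := by
  rintro ⟨x⟩ ⟨y⟩ h
  have h1 : inc A (FLat.mk x) = inc A (FLat.mk y) := h
  rw [inc_mk, inc_mk] at h1
  have h2 : FLat.mk x ≤ FLat.mk y := (FLat.mk_le _ _).2 ((FLat.mk_le x.inc y.inc).1 h1.le)
  have h3 : FLat.mk y ≤ FLat.mk x := (FLat.mk_le _ _).2 ((FLat.mk_le y.inc x.inc).1 h1.ge)
  exact le_antisymm h2 h3

theorem crit [hν : Fact (ℵ₀ ≤ ν)] {V : Type u} (hV : #V ≤ ν) (A : Set μ) (hA : ν < #A)
    (v : V → FLat ν κ A) (w : V → FLat ν κ (Set.univ : Set μ)) :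
    ∃ (σ : FLat ν κ (Set.univ : Set μ) ≃o FLat ν κ (Set.univ : Set μ)) (w' : V → FLat ν κ A),
      (∀ x, σ (inc A (v x)) = inc A (v x)) ∧ ∀ x, σ (w x) = inc A (w' x) := by
  choose a ha using fun i => FLat.ind (v i)
  choose b hb using fun i => FLat.ind (w i)
  choose S T hS hT hTA hc using fun i => (a i).2.ctl
  choose S' T' hS' hT' hTA' hc' using fun i => (b i).2.ctl
  obtain ⟨π, hπ, h1, h2⟩ := exists_swap hν.out (A := A) (T₀ := ⋃ i, T i) (T := ⋃ i, T' i) hA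
    (small_iUnion hν.out hV hT) (Set.iUnion_subset hTA) (small_iUnion hν.out hV hT')
  have h3 : ∀ i, ∃ (S : Set κ) (T : Set μ), #S ≤ ν ∧ #T ≤ ν ∧ π ⁻¹' T ⊆ A ∧ Ctl S T (b i).1 :=
    fun i => ⟨S' i, T' i, hS' i, hT' i, fun β hβ => by
      have := h2 (π β) (Set.mem_iUnion.2 ⟨i, hβ⟩)
      rwa [hπ β] at this, hc' i⟩
  refine ⟨autIso hπ, fun i => FLat.mk ((b i).act hπ A (h3 i)), fun i => ?_, fun i => ?_⟩
  · rw [← ha i, inc_mk, autIso_mk]
    have key : ∀ α β, Eqv ((a i).1 α (π β)) ((a i).1 α β) := by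
      intro α β
      by_cases hβ : β ∈ T i
      · rw [h1 β (Set.mem_iUnion.2 ⟨i, hβ⟩)]
        exact Eqv.refl _
      · have hβ' : π β ∉ T i := by
          intro h
          have h4 := h1 (π β) (Set.mem_iUnion.2 ⟨i, h⟩)
          rw [hπ β] at h4
          rw [← h4] at h
          exact hβ h
        obtain ⟨c, -, -, h5⟩ := (hc i).c1 α
        exact (h5 _ hβ').trans (h5 _ hβ).symm
    exact le_antisymm ((FLat.mk_le _ _).2 fun α β => (key α β).1)
      ((FLat.mk_le _ _).2 fun α β => (key α β).2)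
  · rw [← hb i, autIso_mk]
    rfl

end Pool.Agent.Q216.WL
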