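import Mathlib

/-!
Formulas of the infinitary logic `L_{∞∞}` in the language of lattices, and the class `C_u` of the
lattices of finitely generated `ℓ`-ideals of Archimedean lattice-ordered groups with order-unit.
-/

namespace Pool.Agent.Q216.WL

universe u

/-- The terms of the language of lattices with variables from `V`. -/
inductive Tm (V : Type u) : Type u
  | var (x : V) : Tm V
  | sup (s t : Tm V) : Tm V
  | inf (s t : Tm V) : Tm V

/-- The value of a term in a lattice, for a given assignment of the variables. -/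
def Tm.val {V L : Type u} [Lattice L] (v : V → L) : Tm V → L
  | .var x => v x
  | .sup s t => s.val v ⊔ t.val v
  | .inf s t => s.val v ⊓ t.val v

/-- The variables of a term. -/
def Tm.vars {V : Type u} : Tm V → Set V
  | .var x => {x}
  | .sup s t => s.vars ∪ t.vars
  | .inf s t => s.vars ∪ t.vars

/-- The formulas of `L_{∞∞}` in the language of lattices with variables from the set `V`: equations
between terms, negations, conjunctions of arbitrary sets (families) of formulas and existential
quantifications over arbitrary sets of variables. (Disjunctions and universal quantifiers are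
obtained with negations.) -/
inductive Fm (V : Type u) : Type (u + 1)
  | eq (s t : Tm V) : Fm V
  | neg (φ : Fm V) : Fm V
  | conj (I : Type u) (φ : I → Fm V) : Fm V
  | ex (X : Set V) (φ : Fm V) : Fm V

/-- The formula holds in the lattice `L` for the assignment `v` of the variables. -/
def Fm.Sat {V L : Type u} [Lattice L] : Fm V → (V → L) → Prop
  | .eq s t, v => s.val v = t.val v
  | .neg φ, v => ¬ φ.Sat v
  | .conj _ φ, v => ∀ i, (φ i).Sat v
  | .ex X φ, v => ∃ w : V → L, (∀ x, x ∉ X → w x = v x) ∧ φ.Sat w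

/-- The free variables of a formula. -/
def Fm.free {V : Type u} : Fm V → Set V
  | .eq s t => s.vars ∪ t.vars
  | .neg φ => φ.free
  | .conj _ φ => ⋃ i, (φ i).free
  | .ex X φ => φ.free \ X

/-- A sentence: a formula without free variables. -/
def Fm.IsSentence {V : Type u} (φ : Fm V) : Prop := φ.free = ∅

/-- The lattice `L` is a model of `φ`. -/
def Models (L : Type u) [Lattice L] {V : Type u} (φ : Fm V) : Prop := ∀ v : V → L, φ.Sat v

/-- `I` is an `ℓ`-ideal of the Abelian `ℓ`-group `G`: a convex `ℓ`-subgroup. -/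
structure IsLIdeal {G : Type u} [AddCommGroup G] [Lattice G] (I : Set G) : Prop where
  zero : (0 : G) ∈ I
  add : ∀ x ∈ I, ∀ y ∈ I, x + y ∈ I
  neg : ∀ x ∈ I, -x ∈ I
  sup : ∀ x ∈ I, ∀ y ∈ I, x ⊔ y ∈ I
  convex : ∀ x ∈ I, ∀ y ∈ I, ∀ z, x ≤ z → z ≤ y → z ∈ I

/-- `Id_c G`: the finitely generated `ℓ`-ideals of `G`, ordered by inclusion. -/
abbrev IdC (G : Type u) [AddCommGroup G] [Lattice G] : Type u :=
  {I : Set G // IsLIdeal I ∧ ∃ F : Set G, F.Finite ∧ F ⊆ I ∧ ∀ J, IsLIdeal J → F ⊆ J → I ⊆ J}

/-- `G` has an order-unit. -/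
def HasUnit (G : Type u) [AddCommGroup G] [Lattice G] : Prop :=
  ∃ e : G, 0 ≤ e ∧ ∀ x : G, ∃ n : ℕ, 1 ≤ n ∧ x ≤ n • e

/-- `G` is Archimedean. -/
def IsArch (G : Type u) [AddCommGroup G] [Lattice G] : Prop :=
  ∀ x y : G, (∀ n : ℕ, 1 ≤ n → n • x ≤ y) → x ≤ 0

/-- The class `C_u`: the lattice `L` is isomorphic to `Id_c G` for some Archimedean `ℓ`-group `G`
with an order-unit. (Archimedean `ℓ`-groups are Abelian.) -/
def InCu (L : Type u) [Lattice L] : Prop :=
  ∃ (G : Type u) (_ : AddCommGroup G) (_ : Lattice G) (_ : IsOrderedAddMonoid G),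
    IsArch G ∧ HasUnit G ∧ Nonempty (L ≃o IdC G)

/-- The lattice `L` is isomorphic to `Id_c G` for some Abelian `ℓ`-group `G` with an order-unit,
Archimedean or not. -/
def InAu (L : Type u) [Lattice L] : Prop :=
  ∃ (G : Type u) (_ : AddCommGroup G) (_ : Lattice G) (_ : IsOrderedAddMonoid G),
    HasUnit G ∧ Nonempty (L ≃o IdC G)

end Pool.Agent.Q216.WL
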