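import Pool.Agent.Q216.WL.Fun

/-!
The families of functions and the lattices `FLat ν A`.
-/

namespace Pool.Agent.Q216.WL

open Cardinal

universe u

/-- Domination of functions. -/
def Dom (x y : Z → ℝ) : Prop := ∃ n : ℕ, ∀ z, x z ≤ n * y z

/-- Mutual domination. -/
def Eqv (x y : Z → ℝ) : Prop := Dom x y ∧ Dom y x

theorem Dom.refl (x : Z → ℝ) : Dom x x := ⟨1, fun z => by simp⟩

theorem Dom.trans {x y w : Z → ℝ} (h : Dom x y) (h' : Dom y w) : Dom x w := by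
  obtain ⟨n, hn⟩ := h
  obtain ⟨m, hm⟩ := h'
  refine ⟨n * m, fun z => (hn z).trans ?_⟩
  push_cast
  rw [mul_assoc]
  exact mul_le_mul_of_nonneg_left (hm z) (Nat.cast_nonneg n)

theorem Dom.of_le {x y : Z → ℝ} (h : ∀ z, x z ≤ y z) : Dom x y := ⟨1, fun z => by simpa using h z⟩

theorem Dom.sup {x y x' y' : Z → ℝ} (h : Dom x y) (h' : Dom x' y') (hy : ∀ z, 0 ≤ y z)
    (hy' : ∀ z, 0 ≤ y' z) : Dom (x ⊔ x') (y ⊔ y') := by
  obtain ⟨n, hn⟩ := h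
  obtain ⟨m, hm⟩ := h'
  refine ⟨n + m, fun z => ?_⟩
  push_cast
  simp only [Pi.sup_apply]
  have h1 := hn z
  have h2 := hm z
  have h3 := hy z
  have h4 := hy' z
  have hn0 : (0 : ℝ) ≤ n := Nat.cast_nonneg n
  have hm0 : (0 : ℝ) ≤ m := Nat.cast_nonneg m
  have h5 : y z ≤ y z ⊔ y' z := le_sup_left
  have h6 : y' z ≤ y z ⊔ y' z := le_sup_right
  refine sup_le ?_ ?_
  · nlinarith [mul_nonneg hm0 (h3.trans h5), mul_le_mul_of_nonneg_left h5 hn0]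
  · nlinarith [mul_nonneg hn0 (h4.trans h6), mul_le_mul_of_nonneg_left h6 hm0]

theorem Dom.inf {x y x' y' : Z → ℝ} (h : Dom x y) (h' : Dom x' y') (hy : ∀ z, 0 ≤ y z)
    (hy' : ∀ z, 0 ≤ y' z) : Dom (x ⊓ x') (y ⊓ y') := by
  obtain ⟨n, hn⟩ := h
  obtain ⟨m, hm⟩ := h'
  refine ⟨n + m, fun z => ?_⟩
  push_cast
  simp only [Pi.inf_apply]
  have h1 := hn z
  have h2 := hm z
  have h3 := hy z
  have h4 := hy' z
  have hn0 : (0 : ℝ) ≤ n := Nat.cast_nonneg n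
  have hm0 : (0 : ℝ) ≤ m := Nat.cast_nonneg m
  have h5 : x z ⊓ x' z ≤ x z := inf_le_left
  have h6 : x z ⊓ x' z ≤ x' z := inf_le_right
  rcases le_total (y z) (y' z) with h7 | h7
  · rw [inf_eq_left.2 h7]
    nlinarith [mul_nonneg hm0 h3]
  · rw [inf_eq_right.2 h7]
    nlinarith [mul_nonneg hn0 h4]

theorem Dom.eq_zero {x y : Z → ℝ} (h : Dom x y) (hx : ∀ z, 0 ≤ x z) {z : Z} (hz : y z = 0) :
    x z = 0 := by
  obtain ⟨n, hn⟩ := h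
  have := hn z
  rw [hz, mul_zero] at this
  exact le_antisymm this (hx z)

theorem Dom.pos {x y : Z → ℝ} (h : Dom x y) (hy : ∀ z, 0 ≤ y z) {z : Z} (hz : 0 < x z) :
    0 < y z := by
  obtain ⟨n, hn⟩ := h
  have h1 := hn z
  rcases (hy z).eq_or_lt with h2 | h2
  · rw [← h2, mul_zero] at h1
    exact absurd hz h1.not_gt
  · exact h2

theorem Eqv.refl (x : Z → ℝ) : Eqv x x := ⟨Dom.refl x, Dom.refl x⟩

theorem Eqv.symm {x y : Z → ℝ} (h : Eqv x y) : Eqv y x := ⟨h.2, h.1⟩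

theorem Eqv.trans {x y w : Z → ℝ} (h : Eqv x y) (h' : Eqv y w) : Eqv x w :=
  ⟨h.1.trans h'.1, h'.2.trans h.2⟩

theorem Eqv.sup {x y x' y' : Z → ℝ} (h : Eqv x y) (h' : Eqv x' y') (hx : ∀ z, 0 ≤ x z)
    (hx' : ∀ z, 0 ≤ x' z) (hy : ∀ z, 0 ≤ y z) (hy' : ∀ z, 0 ≤ y' z) : Eqv (x ⊔ x') (y ⊔ y') :=
  ⟨h.1.sup h'.1 hy hy', h.2.sup h'.2 hx hx'⟩

theorem Eqv.inf {x y x' y' : Z → ℝ} (h : Eqv x y) (h' : Eqv x' y') (hx : ∀ z, 0 ≤ x z)
    (hx' : ∀ z, 0 ≤ x' z) (hy : ∀ z, 0 ≤ y z) (hy' : ∀ z, 0 ≤ y' z) : Eqv (x ⊓ x') (y ⊓ y') :=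
  ⟨h.1.inf h'.1 hy hy', h.2.inf h'.2 hx hx'⟩

theorem Eqv.pos {x y : Z → ℝ} (h : Eqv x y) (hy : ∀ z, 0 ≤ y z) {z : Z} (hz : 0 < x z) :
    0 < y z := h.1.pos hy hz

/-- The control of a family outside of the rows in `S` and the columns in `T`. -/
structure Ctl {κ μ : Type u} (S : Set κ) (T : Set μ) (x : κ → μ → Z → ℝ) : Prop where
  c1 : ∀ α, ∃ c ∈ D1, (∀ z, 0 ≤ c z) ∧ ∀ β ∉ T, Eqv (x α β) (R1 c)
  c2 : ∀ β, ∃ d ∈ D2, (∀ z, 0 ≤ d z) ∧ ∀ α ∉ S, Eqv (x α β) (R2 d)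
  c3 : ∃ e : ℝ, 0 ≤ e ∧ ∀ α ∉ S, ∀ β ∉ T, Eqv (x α β) fun _ => e

/-- The families; `A` is the set in which the exceptional columns must lie. -/
structure IsFam (ν : Cardinal.{u}) {κ μ : Type u} (A : Set μ) (x : κ → μ → Z → ℝ) : Prop where
  nonneg : ∀ α β z, 0 ≤ x α β z
  mem : ∀ α β, x α β ∈ D12
  fin : (Set.range fun p : κ × μ => x p.1 p.2).Finite
  ctl : ∃ (S : Set κ) (T : Set μ), #S ≤ ν ∧ #T ≤ ν ∧ T ⊆ A ∧ Ctl S T x

variable {κ μ : Type u}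

theorem R1_nonneg {c : Z0 → ℝ} (h : ∀ z, 0 ≤ c z) : ∀ z, 0 ≤ R1 c z := fun _ =>
  mul_nonneg (tv_pos _).le (h _)

theorem R2_nonneg {c : Z0 → ℝ} (h : ∀ z, 0 ≤ c z) : ∀ z, 0 ≤ R2 c z := fun _ => h _

theorem R1_sup (c c' : Z0 → ℝ) : R1 (c ⊔ c') = R1 c ⊔ R1 c' := by
  funext p
  simp only [R1, Pi.sup_apply]
  exact mul_max_of_nonneg _ _ (tv_pos _).le

theorem R2_sup (c c' : Z0 → ℝ) : R2 (c ⊔ c') = R2 c ⊔ R2 c' := rfl

theorem R1_inf (c c' : Z0 → ℝ) : R1 (c ⊓ c') = R1 c ⊓ R1 c' := by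
  funext p
  simp only [R1, Pi.inf_apply]
  exact mul_min_of_nonneg _ _ (tv_pos _).le

theorem R2_inf (c c' : Z0 → ℝ) : R2 (c ⊓ c') = R2 c ⊓ R2 c' := rfl

theorem Ctl.mono {S S' : Set κ} {T T' : Set μ} {x : κ → μ → Z → ℝ} (h : Ctl S T x) (hS : S ⊆ S')
    (hT : T ⊆ T') : Ctl S' T' x where
  c1 := fun α => by
    obtain ⟨c, hc, h0, h1⟩ := h.c1 α
    exact ⟨c, hc, h0, fun β hβ => h1 β fun hb => hβ (hT hb)⟩
  c2 := fun β => by
    obtain ⟨c, hc, h0, h1⟩ := h.c2 β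
    exact ⟨c, hc, h0, fun α hα => h1 α fun hb => hα (hS hb)⟩
  c3 := by
    obtain ⟨e, he, h1⟩ := h.c3
    exact ⟨e, he, fun α hα β hβ => h1 α (fun hb => hα (hS hb)) β fun hb => hβ (hT hb)⟩

theorem Ctl.sup {S : Set κ} {T : Set μ} {x y : κ → μ → Z → ℝ} (h : Ctl S T x) (h' : Ctl S T y)
    (hx : ∀ α β z, 0 ≤ x α β z) (hy : ∀ α β z, 0 ≤ y α β z) : Ctl S T (x ⊔ y) where
  c1 := fun α => by
    obtain ⟨c, hc, h0, h1⟩ := h.c1 α
    obtain ⟨c', hc', h0', h1'⟩ := h'.c1 α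
    refine ⟨c ⊔ c', lsub_D1.sup _ hc _ hc', fun z => (h0 z).trans le_sup_left, fun β hβ => ?_⟩
    rw [R1_sup]
    exact (h1 β hβ).sup (h1' β hβ) (hx α β) (hy α β) (R1_nonneg h0) (R1_nonneg h0')
  c2 := fun β => by
    obtain ⟨c, hc, h0, h1⟩ := h.c2 β
    obtain ⟨c', hc', h0', h1'⟩ := h'.c2 β
    refine ⟨c ⊔ c', lsub_D2.sup _ hc _ hc', fun z => (h0 z).trans le_sup_left, fun α hα => ?_⟩
    rw [R2_sup]
    exact (h1 α hα).sup (h1' α hα) (hx α β) (hy α β) (R2_nonneg h0) (R2_nonneg h0')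
  c3 := by
    obtain ⟨e, he, h1⟩ := h.c3
    obtain ⟨e', he', h1'⟩ := h'.c3
    refine ⟨e ⊔ e', he.trans le_sup_left, fun α hα β hβ => ?_⟩
    exact (h1 α hα β hβ).sup (h1' α hα β hβ) (hx α β) (hy α β) (fun _ => he) (fun _ => he')

theorem Ctl.inf {S : Set κ} {T : Set μ} {x y : κ → μ → Z → ℝ} (h : Ctl S T x) (h' : Ctl S T y)
    (hx : ∀ α β z, 0 ≤ x α β z) (hy : ∀ α β z, 0 ≤ y α β z) : Ctl S T (x ⊓ y) where
  c1 := fun α => by
    obtain ⟨c, hc, h0, h1⟩ := h.c1 α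
    obtain ⟨c', hc', h0', h1'⟩ := h'.c1 α
    refine ⟨c ⊓ c', lsub_D1.inf hc hc', fun z => le_inf (h0 z) (h0' z), fun β hβ => ?_⟩
    rw [R1_inf]
    exact (h1 β hβ).inf (h1' β hβ) (hx α β) (hy α β) (R1_nonneg h0) (R1_nonneg h0')
  c2 := fun β => by
    obtain ⟨c, hc, h0, h1⟩ := h.c2 β
    obtain ⟨c', hc', h0', h1'⟩ := h'.c2 β
    refine ⟨c ⊓ c', lsub_D2.inf hc hc', fun z => le_inf (h0 z) (h0' z), fun α hα => ?_⟩
    rw [R2_inf]
    exact (h1 α hα).inf (h1' α hα) (hx α β) (hy α β) (R2_nonneg h0) (R2_nonneg h0')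
  c3 := by
    obtain ⟨e, he, h1⟩ := h.c3
    obtain ⟨e', he', h1'⟩ := h'.c3
    refine ⟨e ⊓ e', le_inf he he', fun α hα β hβ => ?_⟩
    exact (h1 α hα β hβ).inf (h1' α hα β hβ) (hx α β) (hy α β) (fun _ => he) (fun _ => he')

theorem small_union {ν : Cardinal.{u}} (hν : ℵ₀ ≤ ν) {X : Type u} {S S' : Set X} (h : #S ≤ ν)
    (h' : #S' ≤ ν) : #(S ∪ S' : Set X) ≤ ν :=
  (mk_union_le S S').trans ((add_le_add h h').trans (add_eq_self hν).le)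

theorem small_iUnion {ν : Cardinal.{u}} (hν : ℵ₀ ≤ ν) {ι X : Type u} (hι : #ι ≤ ν)
    {S : ι → Set X} (h : ∀ i, #(S i) ≤ ν) : #(⋃ i, S i : Set X) ≤ ν := by
  refine (mk_iUnion_le S).trans ?_
  refine (mul_le_mul' hι (ciSup_le' h)).trans (mul_eq_self hν).le

theorem IsFam.sup {ν : Cardinal.{u}} (hν : ℵ₀ ≤ ν) {A : Set μ} {x y : κ → μ → Z → ℝ}
    (hx : IsFam ν A x) (hy : IsFam ν A y) : IsFam ν A (x ⊔ y) where
  nonneg := fun α β z => (hx.nonneg α β z).trans le_sup_left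
  mem := fun α β => lsub_D12.sup _ (hx.mem α β) _ (hy.mem α β)
  fin := by
    refine (Set.Finite.image2 (fun a b => a ⊔ b) hx.fin hy.fin).subset ?_
    rintro _ ⟨p, rfl⟩
    exact ⟨_, ⟨p, rfl⟩, _, ⟨p, rfl⟩, rfl⟩
  ctl := by
    obtain ⟨S, T, hS, hT, hTA, h⟩ := hx.ctl
    obtain ⟨S', T', hS', hT', hTA', h'⟩ := hy.ctl
    exact ⟨S ∪ S', T ∪ T', small_union hν hS hS', small_union hν hT hT',
      Set.union_subset hTA hTA', (h.mono Set.subset_union_left Set.subset_union_left).sup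
      (h'.mono Set.subset_union_right Set.subset_union_right) hx.nonneg hy.nonneg⟩

theorem IsFam.inf {ν : Cardinal.{u}} (hν : ℵ₀ ≤ ν) {A : Set μ} {x y : κ → μ → Z → ℝ}
    (hx : IsFam ν A x) (hy : IsFam ν A y) : IsFam ν A (x ⊓ y) where
  nonneg := fun α β z => le_inf (hx.nonneg α β z) (hy.nonneg α β z)
  mem := fun α β => lsub_D12.inf (hx.mem α β) (hy.mem α β)
  fin := by
    refine (Set.Finite.image2 (fun a b => a ⊓ b) hx.fin hy.fin).subset ?_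
    rintro _ ⟨p, rfl⟩
    exact ⟨_, ⟨p, rfl⟩, _, ⟨p, rfl⟩, rfl⟩
  ctl := by
    obtain ⟨S, T, hS, hT, hTA, h⟩ := hx.ctl
    obtain ⟨S', T', hS', hT', hTA', h'⟩ := hy.ctl
    exact ⟨S ∪ S', T ∪ T', small_union hν hS hS', small_union hν hT hT',
      Set.union_subset hTA hTA', (h.mono Set.subset_union_left Set.subset_union_left).inf
      (h'.mono Set.subset_union_right Set.subset_union_right) hx.nonneg hy.nonneg⟩

/-- Pointwise domination is uniform for families with finitely many values. -/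
theorem uniform {x y : κ → μ → Z → ℝ} (hx : (Set.range fun p : κ × μ => x p.1 p.2).Finite)
    (hy : (Set.range fun p : κ × μ => y p.1 p.2).Finite) (hy0 : ∀ α β z, 0 ≤ y α β z)
    (h : ∀ α β, Dom (x α β) (y α β)) : ∃ n : ℕ, ∀ α β z, x α β z ≤ n * y α β z := by
  classical
  have hfin : (Set.range fun p : κ × μ => (x p.1 p.2, y p.1 p.2)).Finite := by
    refine (hx.prod hy).subset ?_
    rintro _ ⟨p, rfl⟩
    exact ⟨⟨p, rfl⟩, ⟨p, rfl⟩⟩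
  let N : (Z → ℝ) × (Z → ℝ) → ℕ := fun q => if h : Dom q.1 q.2 then h.choose else 0
  obtain ⟨n, hn⟩ := (hfin.image N).bddAbove
  refine ⟨n, fun α β z => ?_⟩
  have h1 : N (x α β, y α β) ≤ n := hn ⟨_, ⟨(α, β), rfl⟩, rfl⟩
  have h2 : N (x α β, y α β) = (h α β).choose := dif_pos (h α β)
  refine ((h α β).choose_spec z).trans ?_
  refine mul_le_mul_of_nonneg_right ?_ (hy0 α β z)
  rw [h2] at h1
  exact_mod_cast h1

/-- The type of the families. -/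
def Fam (ν : Cardinal.{u}) (κ : Type u) {μ : Type u} (A : Set μ) : Type u :=
  {x : κ → μ → Z → ℝ // IsFam ν A x}

instance (ν : Cardinal.{u}) (κ : Type u) {μ : Type u} (A : Set μ) : Preorder (Fam ν κ A) where
  le x y := ∀ α β, Dom (x.1 α β) (y.1 α β)
  le_refl x α β := Dom.refl _
  le_trans x y w h h' α β := (h α β).trans (h' α β)

theorem Fam.le_def {ν : Cardinal.{u}} {A : Set μ} (x y : Fam ν κ A) :
    x ≤ y ↔ ∀ α β, Dom (x.1 α β) (y.1 α β) := Iff.rfl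

/-- The lattice `FLat ν κ A`: families up to mutual domination. -/
def FLat (ν : Cardinal.{u}) (κ : Type u) {μ : Type u} (A : Set μ) : Type u :=
  Antisymmetrization (Fam ν κ A) (· ≤ ·)

instance (ν : Cardinal.{u}) (κ : Type u) {μ : Type u} (A : Set μ) : PartialOrder (FLat ν κ A) :=
  inferInstanceAs (PartialOrder (Antisymmetrization (Fam ν κ A) (· ≤ ·)))

/-- The class of a family. -/
def FLat.mk {ν : Cardinal.{u}} {A : Set μ} (x : Fam ν κ A) : FLat ν κ A :=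
  toAntisymmetrization (· ≤ ·) x

theorem FLat.mk_le {ν : Cardinal.{u}} {A : Set μ} (x y : Fam ν κ A) :
    FLat.mk x ≤ FLat.mk y ↔ x ≤ y := Iff.rfl

theorem FLat.ind {ν : Cardinal.{u}} {A : Set μ} (m : FLat ν κ A) : ∃ x, FLat.mk x = m :=
  Quotient.inductionOn' m fun x => ⟨x, rfl⟩

/-- Suprema of families. -/
def Fam.sp {ν : Cardinal.{u}} (hν : ℵ₀ ≤ ν) {A : Set μ} (x y : Fam ν κ A) : Fam ν κ A :=
  ⟨x.1 ⊔ y.1, x.2.sup hν y.2⟩

/-- Infima of families. -/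
def Fam.ip {ν : Cardinal.{u}} (hν : ℵ₀ ≤ ν) {A : Set μ} (x y : Fam ν κ A) : Fam ν κ A :=
  ⟨x.1 ⊓ y.1, x.2.inf hν y.2⟩

section
variable {ν : Cardinal.{u}} (hν : ℵ₀ ≤ ν) {A : Set μ}

theorem Fam.le_sp_left (x y : Fam ν κ A) : x ≤ x.sp hν y := fun _ _ =>
  Dom.of_le fun _ => le_sup_left

theorem Fam.le_sp_right (x y : Fam ν κ A) : y ≤ x.sp hν y := fun _ _ =>
  Dom.of_le fun _ => le_sup_right

theorem Fam.ip_le_left (x y : Fam ν κ A) : x.ip hν y ≤ x := fun _ _ =>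
  Dom.of_le fun _ => inf_le_left

theorem Fam.ip_le_right (x y : Fam ν κ A) : x.ip hν y ≤ y := fun _ _ =>
  Dom.of_le fun _ => inf_le_right

theorem Fam.sp_le {x y w : Fam ν κ A} (h : x ≤ w) (h' : y ≤ w) : x.sp hν y ≤ w := fun α β => by
  have h1 := (h α β).sup (h' α β) (w.2.nonneg α β) (w.2.nonneg α β)
  rwa [sup_idem] at h1

theorem Fam.le_ip {x y w : Fam ν κ A} (h : w ≤ x) (h' : w ≤ y) : w ≤ x.ip hν y := fun α β => by
  have h1 := (h α β).inf (h' α β) (x.2.nonneg α β) (y.2.nonneg α β)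
  rwa [inf_idem] at h1

/-- The lattice structure. -/
@[reducible] noncomputable def latLattice : Lattice (FLat ν κ A) where
  __ := (inferInstance : PartialOrder (FLat ν κ A))
  sup := Quotient.map₂ (Fam.sp hν) fun x x' h y y' h' =>
    ⟨Fam.sp_le hν (h.1.trans (Fam.le_sp_left hν _ _)) (h'.1.trans (Fam.le_sp_right hν _ _)),
     Fam.sp_le hν (h.2.trans (Fam.le_sp_left hν _ _)) (h'.2.trans (Fam.le_sp_right hν _ _))⟩
  inf := Quotient.map₂ (Fam.ip hν) fun x x' h y y' h' =>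
    ⟨Fam.le_ip hν ((Fam.ip_le_left hν _ _).trans h.1) ((Fam.ip_le_right hν _ _).trans h'.1),
     Fam.le_ip hν ((Fam.ip_le_left hν _ _).trans h.2) ((Fam.ip_le_right hν _ _).trans h'.2)⟩
  le_sup_left := by
    rintro ⟨x⟩ ⟨y⟩
    exact Fam.le_sp_left hν x y
  le_sup_right := by
    rintro ⟨x⟩ ⟨y⟩
    exact Fam.le_sp_right hν x y
  sup_le := by
    rintro ⟨x⟩ ⟨y⟩ ⟨w⟩ h h'
    exact Fam.sp_le hν (x := x) (y := y) (w := w) h h'
  inf_le_left := by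
    rintro ⟨x⟩ ⟨y⟩
    exact Fam.ip_le_left hν x y
  inf_le_right := by
    rintro ⟨x⟩ ⟨y⟩
    exact Fam.ip_le_right hν x y
  le_inf := by
    rintro ⟨x⟩ ⟨y⟩ ⟨w⟩ h h'
    exact Fam.le_ip hν (w := x) (x := y) (y := w) h h'

end

noncomputable instance {ν : Cardinal.{u}} [hν : Fact (ℵ₀ ≤ ν)] {A : Set μ} :
    Lattice (FLat ν κ A) := latLattice hν.out

theorem FLat.mk_sup {ν : Cardinal.{u}} [hν : Fact (ℵ₀ ≤ ν)] {A : Set μ} (x y : Fam ν κ A) :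
    FLat.mk x ⊔ FLat.mk y = FLat.mk (x.sp hν.out y) := rfl

theorem FLat.mk_inf {ν : Cardinal.{u}} [hν : Fact (ℵ₀ ≤ ν)] {A : Set μ} (x y : Fam ν κ A) :
    FLat.mk x ⊓ FLat.mk y = FLat.mk (x.ip hν.out y) := rfl

end Pool.Agent.Q216.WL
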