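import Mathlib

/-!
The lattice-ordered groups of functions `D1`, `D2`, `D12`.
-/

namespace Pool.Agent.Q216.WL

open Filter Topology

/-- A set of real functions closed under addition, negation and suprema. -/
structure LSub {X : Type*} (S : Set (X → ℝ)) : Prop where
  zero : (0 : X → ℝ) ∈ S
  add : ∀ x ∈ S, ∀ y ∈ S, x + y ∈ S
  neg : ∀ x ∈ S, -x ∈ S
  sup : ∀ x ∈ S, ∀ y ∈ S, x ⊔ y ∈ S

namespace LSub
variable {X : Type*} {S : Set (X → ℝ)} (h : LSub S)
include h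

theorem inf {x y : X → ℝ} (hx : x ∈ S) (hy : y ∈ S) : x ⊓ y ∈ S := by
  have h1 := h.neg _ (h.sup _ (h.neg _ hx) _ (h.neg _ hy))
  rwa [neg_sup, neg_neg, neg_neg] at h1

theorem abs {x : X → ℝ} (hx : x ∈ S) : |x| ∈ S := h.sup _ hx _ (h.neg _ hx)

theorem nsmul {x : X → ℝ} (hx : x ∈ S) (n : ℕ) : n • x ∈ S := by
  induction n with
  | zero => rw [zero_nsmul]; exact h.zero
  | succ n ih => rw [succ_nsmul]; exact h.add _ ih _ hx

end LSub

/-- The points of one copy. -/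
abbrev Z0 : Type := ℝ × ℕ

/-- The points: two copies. -/
abbrev Z : Type := Z0 × Bool

/-- An infinitesimal. -/
noncomputable def bb (z : Z0) : ℝ := 1 / ((1 + Real.exp z.1) * (z.2 + 1))

/-- The other infinitesimal; the quotient `aa / bb` is `exp r` at the point `(r, k)`. -/
noncomputable def aa (z : Z0) : ℝ := Real.exp z.1 * bb z

/-- The factors of the two copies. -/
noncomputable def tv (s : Bool) : ℝ := if s then √2 else 1

/-- The filter of the points near the ray `r`. -/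
noncomputable def near (r : ℝ) : Filter Z0 := 𝓝 r ×ˢ atTop

/-- Bounded functions. -/
def Bd {X : Type*} (x : X → ℝ) : Prop := ∃ K : ℝ, ∀ z, |x z| ≤ K

/-- Constant sign along a filter. -/
def Sgn (F : Filter Z0) (l : Z0 → ℝ) : Prop :=
  (∀ᶠ z in F, 0 < l z) ∨ (∀ᶠ z in F, l z = 0) ∨ ∀ᶠ z in F, l z < 0

/-- The function agrees along the filter with a function of `L`. -/
def Loc (F : Filter Z0) (L : Set (Z0 → ℝ)) (x : Z0 → ℝ) : Prop := ∃ l ∈ L, ∀ᶠ z in F, x z = l z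

theorem bb_pos (z : Z0) : 0 < bb z := by
  unfold bb
  have := Real.exp_pos z.1
  positivity

theorem aa_pos (z : Z0) : 0 < aa z := mul_pos (Real.exp_pos _) (bb_pos z)

theorem bb_le (z : Z0) : bb z ≤ 1 / ((z.2 : ℝ) + 1) := by
  unfold bb
  have := Real.exp_pos z.1
  refine one_div_le_one_div_of_le (by positivity) ?_
  nlinarith [Nat.cast_nonneg (α := ℝ) z.2]

theorem bb_le_one (z : Z0) : bb z ≤ 1 := by
  refine (bb_le z).trans ?_
  rw [div_le_one (by positivity)]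
  linarith [Nat.cast_nonneg (α := ℝ) z.2]

theorem aa_le_one (z : Z0) : aa z ≤ 1 := by
  unfold aa bb
  have h1 := Real.exp_pos z.1
  rw [mul_one_div, div_le_one (by positivity)]
  nlinarith [Nat.cast_nonneg (α := ℝ) z.2]

theorem tv_pos (s : Bool) : 0 < tv s := by
  unfold tv
  split_ifs
  · positivity
  · exact one_pos

theorem one_le_tv (s : Bool) : 1 ≤ tv s := by
  unfold tv
  split_ifs
  · exact Real.one_le_sqrt.2 (by norm_num)
  · exact le_rfl

theorem tv_le_two (s : Bool) : tv s ≤ 2 := by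
  unfold tv
  split_ifs
  · rw [Real.sqrt_le_left (by norm_num)]; norm_num
  · norm_num

theorem tendsto_fst_near (r : ℝ) : Tendsto (fun z : Z0 => z.1) (near r) (𝓝 r) := tendsto_fst

theorem tendsto_bb (r : ℝ) : Tendsto bb (near r) (𝓝 0) := by
  have h1 : Tendsto (fun z : Z0 => 1 / ((z.2 : ℝ) + 1)) (near r) (𝓝 0) :=
    tendsto_one_div_add_atTop_nhds_zero_nat.comp tendsto_snd
  exact squeeze_zero (fun z => (bb_pos z).le) bb_le h1

theorem tendsto_exp (r : ℝ) : Tendsto (fun z : Z0 => Real.exp z.1) (near r) (𝓝 (Real.exp r)) :=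
  (Real.continuous_exp.tendsto r).comp (tendsto_fst_near r)

theorem tendsto_aa (r : ℝ) : Tendsto aa (near r) (𝓝 0) := by
  have := (tendsto_exp r).mul (tendsto_bb r)
  rwa [mul_zero] at this

theorem Sgn.of_tendsto {F : Filter Z0} {l : Z0 → ℝ} {c : ℝ} (h : Tendsto l F (𝓝 c)) (hc : c ≠ 0) :
    Sgn F l := by
  rcases lt_or_gt_of_ne hc with hc | hc
  · exact Or.inr (Or.inr (h.eventually_lt_const hc))
  · exact Or.inl (h.eventually_const_lt hc)

theorem Sgn.mul {F : Filter Z0} {l g : Z0 → ℝ} (h : Sgn F l) (hg : ∀ z, 0 < g z) :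
    Sgn F fun z => g z * l z := by
  rcases h with h | h | h
  · exact Or.inl (h.mono fun z hz => mul_pos (hg z) hz)
  · exact Or.inr (Or.inl (h.mono fun z hz => by simp only [hz, mul_zero]))
  · exact Or.inr (Or.inr (h.mono fun z hz => mul_neg_of_pos_of_neg (hg z) hz))

theorem Sgn.const (F : Filter Z0) (c : ℝ) : Sgn F fun _ => c := by
  rcases lt_trichotomy c 0 with h | h | h
  · exact Or.inr (Or.inr (Eventually.of_forall fun _ => h))
  · exact Or.inr (Or.inl (Eventually.of_forall fun _ => h))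
  · exact Or.inl (Eventually.of_forall fun _ => h)

/-- The forms `c + m g`. -/
def Lin (g : Z0 → ℝ) : Set (Z0 → ℝ) := {l | ∃ (c : ℝ) (m : ℤ), l = fun z => c + m * g z}

/-- The forms `c + m t aa + n bb`. -/
def Lin2 (t : ℝ) : Set (Z0 → ℝ) :=
  {l | ∃ (c : ℝ) (m n : ℤ), l = fun z => c + m * (t * aa z) + n * bb z}

theorem sgn_lin {g : Z0 → ℝ} (hg : ∀ z, 0 < g z) {l : Z0 → ℝ} (hl : l ∈ Lin g) :
    Sgn (comap g (𝓝 0)) l := by
  obtain ⟨c, m, rfl⟩ := hl
  by_cases hc : c = 0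
  · subst hc
    have := (Sgn.const (comap g (𝓝 0)) (m : ℝ)).mul hg
    simpa [mul_comm] using this
  · refine Sgn.of_tendsto (c := c) ?_ hc
    have h1 : Tendsto g (comap g (𝓝 0)) (𝓝 0) := tendsto_comap
    have h2 := (h1.const_mul (m : ℝ)).const_add c
    simpa using h2

theorem sgn_lin2 {t r : ℝ} (ht : Irrational (t * Real.exp r)) {l : Z0 → ℝ} (hl : l ∈ Lin2 t) :
    Sgn (near r) l := by
  obtain ⟨c, m, n, rfl⟩ := hl
  by_cases hc : c = 0
  · subst hc
    have h1 : Sgn (near r) fun z : Z0 => (m : ℝ) * (t * Real.exp z.1) + n := by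
      by_cases hm : m = 0
      · subst hm
        have := Sgn.const (near r) (n : ℝ)
        simpa using this
      · refine Sgn.of_tendsto (c := (m : ℝ) * (t * Real.exp r) + n) ?_ ?_
        · exact (((tendsto_exp r).const_mul t).const_mul (m : ℝ)).add_const (n : ℝ)
        · have h2 : Irrational ((m : ℝ) * (t * Real.exp r) + n) :=
            (ht.intCast_mul hm).add_intCast n
          exact h2.ne_zero
    have h3 := h1.mul bb_pos
    have h4 : (fun z : Z0 => bb z * ((m : ℝ) * (t * Real.exp z.1) + n)) =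
        fun z => (0 : ℝ) + m * (t * aa z) + n * bb z := by
      funext z
      unfold aa
      ring
    rwa [h4] at h3
  · refine Sgn.of_tendsto (c := c) ?_ hc
    have h2 := ((((tendsto_aa r).const_mul t).const_mul (m : ℝ)).const_add c).add
      ((tendsto_bb r).const_mul (n : ℝ))
    simpa using h2

/-- A set of functions closed under subtraction, addition, negation. -/
structure Grp (L : Set (Z0 → ℝ)) : Prop where
  zero : (0 : Z0 → ℝ) ∈ L
  add : ∀ x ∈ L, ∀ y ∈ L, x + y ∈ L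
  neg : ∀ x ∈ L, -x ∈ L

theorem grp_lin (g : Z0 → ℝ) : Grp (Lin g) where
  zero := ⟨0, 0, by funext z; simp⟩
  add := by
    rintro _ ⟨c, m, rfl⟩ _ ⟨c', m', rfl⟩
    refine ⟨c + c', m + m', ?_⟩
    funext z
    simp only [Pi.add_apply]
    push_cast
    ring
  neg := by
    rintro _ ⟨c, m, rfl⟩
    refine ⟨-c, -m, ?_⟩
    funext z
    simp only [Pi.neg_apply]
    push_cast
    ring

theorem grp_lin2 (t : ℝ) : Grp (Lin2 t) where
  zero := ⟨0, 0, 0, by funext z; simp⟩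
  add := by
    rintro _ ⟨c, m, n, rfl⟩ _ ⟨c', m', n', rfl⟩
    refine ⟨c + c', m + m', n + n', ?_⟩
    funext z
    simp only [Pi.add_apply]
    push_cast
    ring
  neg := by
    rintro _ ⟨c, m, n, rfl⟩
    refine ⟨-c, -m, -n, ?_⟩
    funext z
    simp only [Pi.neg_apply]
    push_cast
    ring

theorem Loc.add {F : Filter Z0} {L : Set (Z0 → ℝ)} (hL : Grp L) {x y : Z0 → ℝ} (hx : Loc F L x)
    (hy : Loc F L y) : Loc F L (x + y) := by
  obtain ⟨l, hl, h⟩ := hx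
  obtain ⟨l', hl', h'⟩ := hy
  refine ⟨l + l', hL.add _ hl _ hl', ?_⟩
  filter_upwards [h, h'] with z h1 h2
  simp only [Pi.add_apply, h1, h2]

theorem Loc.neg {F : Filter Z0} {L : Set (Z0 → ℝ)} (hL : Grp L) {x : Z0 → ℝ} (hx : Loc F L x) :
    Loc F L (-x) := by
  obtain ⟨l, hl, h⟩ := hx
  refine ⟨-l, hL.neg _ hl, ?_⟩
  filter_upwards [h] with z h1
  simp only [Pi.neg_apply, h1]

theorem Loc.sup {F : Filter Z0} {L : Set (Z0 → ℝ)} (hL : Grp L) (hs : ∀ l ∈ L, Sgn F l)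
    {x y : Z0 → ℝ} (hx : Loc F L x) (hy : Loc F L y) : Loc F L (x ⊔ y) := by
  obtain ⟨l, hl, h⟩ := hx
  obtain ⟨l', hl', h'⟩ := hy
  rcases hs _ (hL.add _ hl _ (hL.neg _ hl')) with h1 | h1 | h1
  · refine ⟨l, hl, ?_⟩
    filter_upwards [h, h', h1] with z h2 h3 h4
    simp only [Pi.sup_apply, Pi.add_apply, Pi.neg_apply] at h4 ⊢
    rw [h2, h3]
    exact max_eq_left (by linarith)
  · refine ⟨l, hl, ?_⟩
    filter_upwards [h, h', h1] with z h2 h3 h4
    simp only [Pi.sup_apply, Pi.add_apply, Pi.neg_apply] at h4 ⊢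
    rw [h2, h3]
    exact max_eq_left (by linarith)
  · refine ⟨l', hl', ?_⟩
    filter_upwards [h, h', h1] with z h2 h3 h4
    simp only [Pi.sup_apply, Pi.add_apply, Pi.neg_apply] at h4 ⊢
    rw [h2, h3]
    exact max_eq_right (by linarith)

theorem Bd.add {X : Type*} {x y : X → ℝ} (hx : Bd x) (hy : Bd y) : Bd (x + y) := by
  obtain ⟨K, hK⟩ := hx
  obtain ⟨M, hM⟩ := hy
  exact ⟨K + M, fun z => (abs_add_le _ _).trans (add_le_add (hK z) (hM z))⟩

theorem Bd.neg {X : Type*} {x : X → ℝ} (hx : Bd x) : Bd (-x) := by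
  obtain ⟨K, hK⟩ := hx
  exact ⟨K, fun z => by rw [Pi.neg_apply, abs_neg]; exact hK z⟩

theorem Bd.sup {X : Type*} {x y : X → ℝ} (hx : Bd x) (hy : Bd y) : Bd (x ⊔ y) := by
  obtain ⟨K, hK⟩ := hx
  obtain ⟨M, hM⟩ := hy
  refine ⟨max K M, fun z => ?_⟩
  rw [Pi.sup_apply]
  exact (abs_max_le_max_abs_abs).trans (max_le_max (hK z) (hM z))

/-- The functions of the first kind. -/
def D1 : Set (Z0 → ℝ) := {x | Bd x ∧ Loc (comap aa (𝓝 0)) (Lin aa) x}

/-- The functions of the second kind. -/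
def D2 : Set (Z0 → ℝ) := {x | Bd x ∧ Loc (comap bb (𝓝 0)) (Lin bb) x}

/-- The functions on the two copies. -/
def D12 : Set (Z → ℝ) := {x | Bd x ∧ ∀ s r, Irrational (tv s * Real.exp r) →
  Loc (near r) (Lin2 (tv s)) fun z => x (z, s)}

theorem lsub_D1 : LSub D1 where
  zero := ⟨⟨0, fun z => by simp⟩, 0, (grp_lin aa).zero, Eventually.of_forall fun _ => rfl⟩
  add := fun _ hx _ hy => ⟨hx.1.add hy.1, hx.2.add (grp_lin aa) hy.2⟩
  neg := fun _ hx => ⟨hx.1.neg, hx.2.neg (grp_lin aa)⟩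
  sup := fun _ hx _ hy => ⟨hx.1.sup hy.1, hx.2.sup (grp_lin aa) (fun _ => sgn_lin aa_pos) hy.2⟩

theorem lsub_D2 : LSub D2 where
  zero := ⟨⟨0, fun z => by simp⟩, 0, (grp_lin bb).zero, Eventually.of_forall fun _ => rfl⟩
  add := fun _ hx _ hy => ⟨hx.1.add hy.1, hx.2.add (grp_lin bb) hy.2⟩
  neg := fun _ hx => ⟨hx.1.neg, hx.2.neg (grp_lin bb)⟩
  sup := fun _ hx _ hy => ⟨hx.1.sup hy.1, hx.2.sup (grp_lin bb) (fun _ => sgn_lin bb_pos) hy.2⟩

theorem lsub_D12 : LSub D12 where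
  zero := ⟨⟨0, fun z => by simp⟩, fun s _ _ => ⟨0, (grp_lin2 (tv s)).zero,
    Eventually.of_forall fun _ => rfl⟩⟩
  add := fun _ hx _ hy => ⟨hx.1.add hy.1, fun s r h => (hx.2 s r h).add (grp_lin2 _) (hy.2 s r h)⟩
  neg := fun _ hx => ⟨hx.1.neg, fun s r h => (hx.2 s r h).neg (grp_lin2 _)⟩
  sup := fun _ hx _ hy => ⟨hx.1.sup hy.1, fun s r h =>
    (hx.2 s r h).sup (grp_lin2 _) (fun _ => sgn_lin2 h) (hy.2 s r h)⟩

/-- The first embedding. -/
noncomputable def R1 (x : Z0 → ℝ) : Z → ℝ := fun p => tv p.2 * x p.1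

/-- The second embedding. -/
def R2 (x : Z0 → ℝ) : Z → ℝ := fun p => x p.1

theorem R1_mem {x : Z0 → ℝ} (hx : x ∈ D1) : R1 x ∈ D12 := by
  obtain ⟨⟨K, hK⟩, l, ⟨c, m, rfl⟩, h⟩ := hx
  refine ⟨⟨2 * K, fun p => ?_⟩, fun s r _ => ?_⟩
  · unfold R1
    rw [abs_mul, abs_of_pos (tv_pos p.2)]
    have := tv_le_two p.2
    have := tv_pos p.2
    nlinarith [hK p.1, abs_nonneg (x p.1)]
  · refine ⟨_, ⟨tv s * c, m, 0, rfl⟩, ?_⟩
    have h1 : near r ≤ comap aa (𝓝 0) := tendsto_iff_comap.1 (tendsto_aa r)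
    filter_upwards [h1 h] with z hz
    simp only [R1]
    rw [hz]
    push_cast
    ring

theorem R2_mem {x : Z0 → ℝ} (hx : x ∈ D2) : R2 x ∈ D12 := by
  obtain ⟨⟨K, hK⟩, l, ⟨c, m, rfl⟩, h⟩ := hx
  refine ⟨⟨K, fun p => hK p.1⟩, fun s r _ => ?_⟩
  refine ⟨_, ⟨c, 0, m, rfl⟩, ?_⟩
  have h1 : near r ≤ comap bb (𝓝 0) := tendsto_iff_comap.1 (tendsto_bb r)
  filter_upwards [h1 h] with z hz
  simp only [R2]
  rw [hz]
  push_cast
  ring

theorem const_mem_D1 (c : ℝ) : (fun _ => c : Z0 → ℝ) ∈ D1 :=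
  ⟨⟨|c|, fun _ => le_rfl⟩, _, ⟨c, 0, rfl⟩, Eventually.of_forall fun z => by simp⟩

theorem const_mem_D2 (c : ℝ) : (fun _ => c : Z0 → ℝ) ∈ D2 :=
  ⟨⟨|c|, fun _ => le_rfl⟩, _, ⟨c, 0, rfl⟩, Eventually.of_forall fun z => by simp⟩

theorem aa_mem_D1 : aa ∈ D1 :=
  ⟨⟨1, fun z => by rw [abs_of_pos (aa_pos z)]; exact aa_le_one z⟩, _, ⟨0, 1, rfl⟩,
    Eventually.of_forall fun z => by simp⟩

theorem bb_mem_D2 : bb ∈ D2 :=
  ⟨⟨1, fun z => by rw [abs_of_pos (bb_pos z)]; exact bb_le_one z⟩, _, ⟨0, 1, rfl⟩,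
    Eventually.of_forall fun z => by simp⟩

/-- All or nothing near a ray. -/
theorem all_or_nothing {x : Z → ℝ} (hx : x ∈ D12) {s : Bool} {r : ℝ}
    (hr : Irrational (tv s * Real.exp r)) :
    (∀ᶠ z in near r, x (z, s) ≠ 0) ∨ ∀ᶠ z in near r, x (z, s) = 0 := by
  obtain ⟨l, hl, h⟩ := hx.2 s r hr
  rcases sgn_lin2 hr hl with h1 | h1 | h1
  · left
    filter_upwards [h, h1] with z h2 h3
    rw [h2]
    exact h3.ne'
  · right
    filter_upwards [h, h1] with z h2 h3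
    rw [h2]
    exact h3
  · left
    filter_upwards [h, h1] with z h2 h3
    rw [h2]
    exact h3.ne

/-- One of the two copies is good at each ray. -/
theorem exists_copy (r : ℝ) : ∃ s, Irrational (tv s * Real.exp r) := by
  by_cases h : Irrational (Real.exp r)
  · exact ⟨false, by simpa [tv] using h⟩
  · refine ⟨true, ?_⟩
    obtain ⟨q, hq⟩ := not_not.1 h
    have hq0 : q ≠ 0 := by
      rintro rfl
      have := Real.exp_pos r
      rw [← hq] at this
      simp at this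
    simp only [tv, if_true]
    rw [← hq]
    exact irrational_sqrt_two.mul_ratCast hq0

end Pool.Agent.Q216.WL
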