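import Pool.Agent.Q216.WL.Defs

/-!
Finitely generated `ℓ`-ideals of Abelian `ℓ`-groups are principal.
-/

namespace Pool.Agent.Q216.WL

universe u

section
set_option linter.unusedSectionVars false
variable {G : Type u} [AddCommGroup G] [Lattice G] [IsOrderedAddMonoid G]

/-- `x` is dominated by `y`. -/
def Le (x y : G) : Prop := ∃ n : ℕ, |x| ≤ n • |y|

theorem labs_add (x y : G) : |x + y| ≤ |x| + |y| :=
  sup_le (add_le_add (le_abs_self x) (le_abs_self y)) (by
    rw [neg_add]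
    exact add_le_add (neg_le_abs x) (neg_le_abs y))

theorem nsmul_mono_left {x : G} (hx : 0 ≤ x) {m n : ℕ} (h : m ≤ n) : m • x ≤ n • x := by
  obtain ⟨k, rfl⟩ := Nat.exists_eq_add_of_le h
  rw [add_nsmul]
  exact le_add_of_nonneg_right (nsmul_nonneg hx k)

theorem Le.refl (x : G) : Le x x := ⟨1, by rw [one_nsmul]⟩

theorem Le.trans {x y z : G} (h : Le x y) (h' : Le y z) : Le x z := by
  obtain ⟨n, hn⟩ := h
  obtain ⟨m, hm⟩ := h'
  refine ⟨n * m, hn.trans ?_⟩
  rw [mul_nsmul']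
  exact nsmul_le_nsmul_right hm n

theorem Le.add {x y z : G} (h : Le x z) (h' : Le y z) : Le (x + y) z := by
  obtain ⟨n, hn⟩ := h
  obtain ⟨m, hm⟩ := h'
  refine ⟨n + m, (labs_add x y).trans ?_⟩
  rw [add_nsmul]
  exact add_le_add hn hm

theorem Le.of_abs {x y : G} (h : |x| ≤ |y|) : Le x y := ⟨1, by rwa [one_nsmul]⟩

theorem Le.zero (z : G) : Le 0 z := ⟨0, by simp⟩

/-- The ideal generated by `a`. -/
def idl (a : G) : Set G := {x | Le x a}

theorem isLIdeal_idl (a : G) : IsLIdeal (idl a) where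
  zero := Le.zero a
  add := fun x hx y hy => Le.add hx hy
  neg := fun x hx => by
    obtain ⟨n, hn⟩ := hx
    exact ⟨n, by rwa [abs_neg]⟩
  sup := fun x hx y hy => by
    obtain ⟨n, hn⟩ := hx
    obtain ⟨m, hm⟩ := hy
    refine ⟨n + m, ?_⟩
    have h1 : |x ⊔ y| ≤ |x| + |y| := by
      refine sup_le (sup_le ?_ ?_) ?_
      · exact le_add_of_le_of_nonneg (le_abs_self x) (abs_nonneg y)
      · exact le_add_of_nonneg_of_le (abs_nonneg x) (le_abs_self y)
      · rw [neg_sup]
        exact inf_le_left.trans (le_add_of_le_of_nonneg (neg_le_abs x) (abs_nonneg y))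
    refine h1.trans ?_
    rw [add_nsmul]
    exact add_le_add hn hm
  convex := fun x hx y hy z hxz hzy => by
    obtain ⟨n, hn⟩ := hx
    obtain ⟨m, hm⟩ := hy
    refine ⟨n + m, ?_⟩
    have h1 : |z| ≤ |x| + |y| := by
      refine sup_le ?_ ?_
      · exact le_add_of_nonneg_of_le (abs_nonneg x) (hzy.trans (le_abs_self y))
      · exact le_add_of_le_of_nonneg ((neg_le_neg hxz).trans (neg_le_abs x)) (abs_nonneg y)
    refine h1.trans ?_
    rw [add_nsmul]
    exact add_le_add hn hm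

theorem mem_idl (a : G) : a ∈ idl a := Le.refl a

theorem IsLIdeal.abs_mem {I : Set G} (hI : IsLIdeal I) {x : G} (hx : x ∈ I) : |x| ∈ I :=
  hI.sup x hx _ (hI.neg x hx)

theorem IsLIdeal.nsmul_mem {I : Set G} (hI : IsLIdeal I) {x : G} (hx : x ∈ I) (n : ℕ) :
    n • x ∈ I := by
  induction n with
  | zero => rw [zero_nsmul]; exact hI.zero
  | succ n ih => rw [succ_nsmul]; exact hI.add _ ih _ hx

theorem IsLIdeal.idl_subset {I : Set G} (hI : IsLIdeal I) {a : G} (ha : a ∈ I) : idl a ⊆ I := by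
  rintro x ⟨n, hn⟩
  have h1 : n • |a| ∈ I := hI.nsmul_mem (hI.abs_mem ha) n
  refine hI.convex _ (hI.neg _ h1) _ h1 x ?_ ((le_abs_self x).trans hn)
  exact neg_le.1 ((neg_le_abs x).trans hn)

theorem idl_subset_iff (x y : G) : idl x ⊆ idl y ↔ Le x y :=
  ⟨fun h => h (mem_idl x), fun h => (isLIdeal_idl y).idl_subset h⟩

/-- The ideal generated by `a` as an element of `Id_c G`. -/
def pr (a : G) : IdC G := ⟨idl a, isLIdeal_idl a, {a}, Set.finite_singleton a,
  Set.singleton_subset_iff.2 (mem_idl a), fun _ hJ h => hJ.idl_subset (Set.singleton_subset_iff.1 h)⟩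

theorem pr_le_iff (x y : G) : pr x ≤ pr y ↔ Le x y := idl_subset_iff x y

theorem pr_surj (I : IdC G) : ∃ a : G, 0 ≤ a ∧ pr a = I := by
  obtain ⟨I, hI, F, hF, hFI, hmin⟩ := I
  classical
  refine ⟨∑ x ∈ hF.toFinset, |x|, Finset.sum_nonneg fun x _ => abs_nonneg x, ?_⟩
  refine Subtype.ext (Set.Subset.antisymm ?_ ?_)
  · refine hI.idl_subset ?_
    have : ∀ s : Finset G, (∀ x ∈ s, x ∈ I) → ∑ x ∈ s, |x| ∈ I := by
      intro s
      induction s using Finset.induction_on with
      | empty => intro _; rw [Finset.sum_empty]; exact hI.zero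
      | insert a s ha ih =>
        intro h
        rw [Finset.sum_insert ha]
        exact hI.add _ (hI.abs_mem (h a (Finset.mem_insert_self a s))) _
          (ih fun x hx => h x (Finset.mem_insert_of_mem hx))
    exact this _ fun x hx => hFI (hF.mem_toFinset.1 hx)
  · refine hmin _ (isLIdeal_idl _) fun x hx => ?_
    refine ⟨1, ?_⟩
    rw [one_nsmul]
    exact (Finset.single_le_sum (f := fun x => |x|) (fun y _ => abs_nonneg y)
      (hF.mem_toFinset.2 hx)).trans (le_abs_self _)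

end

/-- A lattice is isomorphic to `Id_c G` if there is a surjection from `G` which reflects domination. -/
theorem iso_of_map {G : Type u} [AddCommGroup G] [Lattice G] [IsOrderedAddMonoid G] {L : Type u}
    [Lattice L] (P : G → L) (hP : Function.Surjective P) (h : ∀ x y, P x ≤ P y ↔ Le x y) :
    Nonempty (L ≃o IdC G) := by
  choose c hc0 hc using fun I : IdC G => pr_surj I
  have h1 : ∀ I J : IdC G, P (c I) ≤ P (c J) ↔ I ≤ J := fun I J => by
    rw [h, ← pr_le_iff, hc, hc]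
  refine ⟨(RelIso.ofSurjective (OrderEmbedding.ofMapLEIff (fun I => P (c I)) h1) ?_).symm⟩
  intro l
  obtain ⟨x, rfl⟩ := hP l
  refine ⟨pr x, ?_⟩
  have h2 : pr (c (pr x)) = pr x := hc _
  refine le_antisymm ?_ ?_
  · exact (h _ _).2 ((pr_le_iff _ _).1 h2.le)
  · exact (h _ _).2 ((pr_le_iff _ _).1 h2.ge)

/-- The converse. -/
theorem map_of_iso {G : Type u} [AddCommGroup G] [Lattice G] [IsOrderedAddMonoid G] {L : Type u}
    [Lattice L] (e : L ≃o IdC G) : ∃ P : G → L, (∀ l, ∃ x, 0 ≤ x ∧ P x = l) ∧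
      ∀ x y, P x ≤ P y ↔ Le x y := by
  refine ⟨fun x => e.symm (pr x), fun l => ?_, fun x y => ?_⟩
  · obtain ⟨a, ha, h⟩ := pr_surj (e l)
    exact ⟨a, ha, by simp only [h, OrderIso.symm_apply_apply]⟩
  · rw [OrderIso.le_iff_le, pr_le_iff]

end Pool.Agent.Q216.WL
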