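import Pool.Agent.Q216.WL.Fam
import Pool.Agent.Q216.WL.Idc

/-!
The lattice `FLat ν κ A`, where `A` is a well ordered set of columns of the same type as the set of
rows, belongs to `C_u`.
-/

namespace Pool.Agent.Q216.WL

open Cardinal

universe u

section
variable {κ B : Type u} [LinearOrder κ]

/-- The columns below `δ`. -/
def Td (B : Type u) (δ : κ) : Set (κ ⊕ B) := Sum.inl '' Set.Iio δ

/-- The order-unit. -/
noncomputable def uu (α : κ) : κ ⊕ B → Z → ℝ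
  | Sum.inl β => if α < β then R1 fun _ => 1 else R2 fun _ => 1
  | Sum.inr _ => R1 fun _ => 1

/-- The data of an element. -/
structure Dat (δ : κ) (c d : κ → Z0 → ℝ) (e : ℝ) (x : κ → κ ⊕ B → Z → ℝ) : Prop where
  hc : ∀ α, c α ∈ D1
  hd : ∀ b, d b ∈ D2
  h1 : ∀ α < δ, ∀ β ∉ Td B δ, x α β = R1 (c α)
  h2 : ∀ α, δ ≤ α → ∀ b < δ, x α (Sum.inl b) = R2 (d b)
  h3 : ∀ α, δ ≤ α → ∀ β ∉ Td B δ, x α β = fun z => e * uu α β z

theorem Td_mono {δ δ' : κ} (h : δ ≤ δ') : Td B δ ⊆ Td B δ' :=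
  Set.image_mono (Set.Iio_subset_Iio h)

theorem inl_notMem_Td {δ b : κ} (h : δ ≤ b) : (Sum.inl b : κ ⊕ B) ∉ Td B δ := by
  rintro ⟨b', hb', h'⟩
  rw [Sum.inl.inj h'] at hb'
  exact absurd h (not_le.2 hb')

theorem inl_mem_Td {δ b : κ} (h : b < δ) : (Sum.inl b : κ ⊕ B) ∈ Td B δ := ⟨b, h, rfl⟩

theorem uu_of_notMem {δ α : κ} {β : κ ⊕ B} (hα : α < δ) (hβ : β ∉ Td B δ) :
    uu α β = R1 fun _ => 1 := by
  rcases β with b | b
  · have h : δ ≤ b := by
      by_contra h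
      exact hβ (inl_mem_Td (not_le.1 h))
    simp only [uu]
    rw [if_pos (hα.trans_le h)]
  · rfl

theorem uu_of_lt {α b : κ} (h : b ≤ α) : uu α (Sum.inl b : κ ⊕ B) = R2 fun _ => 1 := by
  simp only [uu]
  rw [if_neg (not_lt.2 h)]

theorem one_le_uu (α : κ) (β : κ ⊕ B) (z : Z) : 1 ≤ uu α β z := by
  have h1 : (1 : ℝ) ≤ R1 (fun _ => 1) z := by simpa [R1] using one_le_tv z.2
  rcases β with b | b
  · simp only [uu]
    split_ifs
    · exact h1
    · exact le_rfl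
  · exact h1

theorem uu_le_two (α : κ) (β : κ ⊕ B) (z : Z) : uu α β z ≤ 2 := by
  have h1 : R1 (fun _ => 1) z ≤ (2 : ℝ) := by simpa [R1] using tv_le_two z.2
  rcases β with b | b
  · simp only [uu]
    split_ifs
    · exact h1
    · simp [R2]
  · exact h1

theorem uu_mem (α : κ) (β : κ ⊕ B) : uu α β ∈ D12 := by
  rcases β with b | b
  · simp only [uu]
    split_ifs
    · exact R1_mem (const_mem_D1 1)
    · exact R2_mem (const_mem_D2 1)
  · exact R1_mem (const_mem_D1 1)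

theorem mul_R1 (e : ℝ) : (fun z => e * R1 (fun _ => 1) z) = R1 fun _ => e := by
  funext z
  simp [R1, mul_comm]

theorem mul_R2 (e : ℝ) : (fun z => e * R2 (fun _ => 1) z) = R2 fun _ => e := by
  funext z
  simp [R2]

theorem Dat.raise {δ δ' : κ} {c d : κ → Z0 → ℝ} {e : ℝ} {x : κ → κ ⊕ B → Z → ℝ}
    (h : Dat δ c d e x) (hδ : δ ≤ δ') : ∃ c' d', Dat δ' c' d' e x := by
  classical
  refine ⟨fun α => if α < δ then c α else fun _ => e, fun b => if b < δ then d b else fun _ => e,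
    fun α => ?_, fun b => ?_, fun α hα β hβ => ?_, fun α hα b hb => ?_, fun α hα β hβ => ?_⟩
  · split_ifs
    · exact h.hc α
    · exact const_mem_D1 e
  · split_ifs
    · exact h.hd b
    · exact const_mem_D2 e
  · by_cases h1 : α < δ
    · rw [if_pos h1]
      exact h.h1 α h1 β fun h2 => hβ (Td_mono hδ h2)
    · rw [if_neg h1, h.h3 α (not_lt.1 h1) β fun h2 => hβ (Td_mono hδ h2), uu_of_notMem hα hβ]
      exact mul_R1 e
  · by_cases h1 : b < δ
    · rw [if_pos h1]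
      exact h.h2 α (hδ.trans hα) b h1
    · rw [if_neg h1, h.h3 α (hδ.trans hα) _ (inl_notMem_Td (not_lt.1 h1)),
        uu_of_lt (hb.le.trans hα)]
      exact mul_R2 e
  · exact h.h3 α (hδ.trans hα) β fun h2 => hβ (Td_mono hδ h2)

/-- The elements of the group. -/
structure InG (x : κ → κ ⊕ B → Z → ℝ) : Prop where
  mem : ∀ α β, x α β ∈ D12
  fin : (Set.range fun p : κ × (κ ⊕ B) => x p.1 p.2).Finite
  dat : ∃ δ c d e, Dat δ c d e x

theorem R1_add (c c' : Z0 → ℝ) : R1 (c + c') = R1 c + R1 c' := by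
  funext p
  simp only [R1, Pi.add_apply]
  ring

theorem R1_neg (c : Z0 → ℝ) : R1 (-c) = -R1 c := by
  funext p
  simp only [R1, Pi.neg_apply]
  ring

theorem InG.add {x y : κ → κ ⊕ B → Z → ℝ} (hx : InG x) (hy : InG y) : InG (x + y) where
  mem := fun α β => lsub_D12.add _ (hx.mem α β) _ (hy.mem α β)
  fin := by
    refine (Set.Finite.image2 (fun a b => a + b) hx.fin hy.fin).subset ?_
    rintro _ ⟨p, rfl⟩
    exact ⟨_, ⟨p, rfl⟩, _, ⟨p, rfl⟩, rfl⟩
  dat := by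
    obtain ⟨δ, c, d, e, h⟩ := hx.dat
    obtain ⟨δ', c', d', e', h'⟩ := hy.dat
    obtain ⟨c₁, d₁, h₁⟩ := h.raise (le_max_left δ δ')
    obtain ⟨c₂, d₂, h₂⟩ := h'.raise (le_max_right δ δ')
    refine ⟨max δ δ', fun α => c₁ α + c₂ α, fun b => d₁ b + d₂ b, e + e',
      fun α => lsub_D1.add _ (h₁.hc α) _ (h₂.hc α), fun b => lsub_D2.add _ (h₁.hd b) _ (h₂.hd b),
      fun α hα β hβ => ?_, fun α hα b hb => ?_, fun α hα β hβ => ?_⟩
    · rw [Pi.add_apply, Pi.add_apply, h₁.h1 α hα β hβ, h₂.h1 α hα β hβ, R1_add]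
    · rw [Pi.add_apply, Pi.add_apply, h₁.h2 α hα b hb, h₂.h2 α hα b hb]
      rfl
    · rw [Pi.add_apply, Pi.add_apply, h₁.h3 α hα β hβ, h₂.h3 α hα β hβ]
      funext z
      simp only [Pi.add_apply]
      ring

theorem InG.neg {x : κ → κ ⊕ B → Z → ℝ} (hx : InG x) : InG (-x) where
  mem := fun α β => lsub_D12.neg _ (hx.mem α β)
  fin := by
    refine (hx.fin.image fun a => -a).subset ?_
    rintro _ ⟨p, rfl⟩
    exact ⟨_, ⟨p, rfl⟩, rfl⟩
  dat := by
    obtain ⟨δ, c, d, e, h⟩ := hx.dat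
    refine ⟨δ, fun α => -c α, fun b => -d b, -e, fun α => lsub_D1.neg _ (h.hc α),
      fun b => lsub_D2.neg _ (h.hd b), fun α hα β hβ => ?_, fun α hα b hb => ?_,
      fun α hα β hβ => ?_⟩
    · rw [Pi.neg_apply, Pi.neg_apply, h.h1 α hα β hβ, R1_neg]
    · rw [Pi.neg_apply, Pi.neg_apply, h.h2 α hα b hb]
      rfl
    · rw [Pi.neg_apply, Pi.neg_apply, h.h3 α hα β hβ]
      funext z
      simp only [Pi.neg_apply]
      ring

theorem InG.sup {x y : κ → κ ⊕ B → Z → ℝ} (hx : InG x) (hy : InG y) : InG (x ⊔ y) where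
  mem := fun α β => lsub_D12.sup _ (hx.mem α β) _ (hy.mem α β)
  fin := by
    refine (Set.Finite.image2 (fun a b => a ⊔ b) hx.fin hy.fin).subset ?_
    rintro _ ⟨p, rfl⟩
    exact ⟨_, ⟨p, rfl⟩, _, ⟨p, rfl⟩, rfl⟩
  dat := by
    obtain ⟨δ, c, d, e, h⟩ := hx.dat
    obtain ⟨δ', c', d', e', h'⟩ := hy.dat
    obtain ⟨c₁, d₁, h₁⟩ := h.raise (le_max_left δ δ')
    obtain ⟨c₂, d₂, h₂⟩ := h'.raise (le_max_right δ δ')
    refine ⟨max δ δ', fun α => c₁ α ⊔ c₂ α, fun b => d₁ b ⊔ d₂ b, e ⊔ e',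
      fun α => lsub_D1.sup _ (h₁.hc α) _ (h₂.hc α), fun b => lsub_D2.sup _ (h₁.hd b) _ (h₂.hd b),
      fun α hα β hβ => ?_, fun α hα b hb => ?_, fun α hα β hβ => ?_⟩
    · rw [Pi.sup_apply, Pi.sup_apply, h₁.h1 α hα β hβ, h₂.h1 α hα β hβ, R1_sup]
    · rw [Pi.sup_apply, Pi.sup_apply, h₁.h2 α hα b hb, h₂.h2 α hα b hb]
      rfl
    · rw [Pi.sup_apply, Pi.sup_apply, h₁.h3 α hα β hβ, h₂.h3 α hα β hβ]
      funext z
      simp only [Pi.sup_apply]
      exact (max_mul_of_nonneg _ _ (zero_le_one.trans (one_le_uu α β z))).symm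

theorem InG.inf {x y : κ → κ ⊕ B → Z → ℝ} (hx : InG x) (hy : InG y) : InG (x ⊓ y) := by
  have h1 := (hx.neg.sup hy.neg).neg
  rwa [neg_sup, neg_neg, neg_neg] at h1

theorem inG_uu [Nonempty κ] : InG (fun (α : κ) (β : κ ⊕ B) => uu α β) where
  mem := uu_mem
  fin := (Set.toFinite {R1 fun _ => 1, R2 fun _ => 1}).subset (by
    rintro _ ⟨p, rfl⟩
    obtain ⟨α, b | b⟩ := p
    · simp only [uu]
      split_ifs
      · exact Or.inl rfl
      · exact Or.inr rfl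
    · exact Or.inl rfl)
  dat := by
    obtain ⟨δ⟩ := ‹Nonempty κ›
    refine ⟨δ, fun _ _ => 1, fun _ _ => 1, 1, fun _ => const_mem_D1 1, fun _ => const_mem_D2 1,
      fun α hα β hβ => uu_of_notMem hα hβ, fun α hα b hb => uu_of_lt (hb.le.trans hα),
      fun α hα β hβ => ?_⟩
    funext z
    simp

theorem inG_zero [Nonempty κ] : InG (0 : κ → κ ⊕ B → Z → ℝ) := by
  have h := (inG_uu (κ := κ) (B := B)).add (inG_uu (κ := κ) (B := B)).neg
  rwa [add_neg_cancel] at h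

variable (κ B) in
/-- The group as a subgroup of the group of all functions. -/
noncomputable def gsub [Nonempty κ] : AddSubgroup (κ → κ ⊕ B → Z → ℝ) where
  carrier := {x | InG x}
  zero_mem' := inG_zero
  add_mem' := fun hx hy => InG.add hx hy
  neg_mem' := fun hx => InG.neg hx

variable (κ B) in
/-- The group. -/
abbrev GG : Type u := {x : κ → κ ⊕ B → Z → ℝ // InG x}

noncomputable instance [Nonempty κ] : AddCommGroup (GG κ B) :=
  inferInstanceAs (AddCommGroup (gsub κ B))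

noncomputable instance : Lattice (GG κ B) :=
  Subtype.lattice (fun _ _ hx hy => InG.sup hx hy) (fun _ _ hx hy => InG.inf hx hy)

theorem GG.coe_add [Nonempty κ] (x y : GG κ B) : (x + y).1 = x.1 + y.1 := rfl

theorem GG.coe_neg [Nonempty κ] (x : GG κ B) : (-x).1 = -x.1 := rfl

theorem GG.coe_abs [Nonempty κ] (x : GG κ B) (α : κ) (β : κ ⊕ B) (z : Z) :
    (|x|).1 α β z = |x.1 α β z| := rfl

theorem GG.coe_nsmul [Nonempty κ] (n : ℕ) (x : GG κ B) (α : κ) (β : κ ⊕ B) (z : Z) :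
    (n • x).1 α β z = n * x.1 α β z := by
  have h : (n • x).1 = n • x.1 := rfl
  rw [h]
  simp only [Pi.smul_apply, nsmul_eq_mul]

theorem GG.le_iff (x y : GG κ B) : x ≤ y ↔ ∀ α β z, x.1 α β z ≤ y.1 α β z := Iff.rfl

instance [Nonempty κ] : IsOrderedAddMonoid (GG κ B) where
  add_le_add_left := fun x y h w α β z => by
    have := h α β z
    simp only [GG.coe_add, Pi.add_apply]
    linarith

theorem GG.le_nsmul_iff [Nonempty κ] (x y : GG κ B) :
    Le x y ↔ ∃ n : ℕ, ∀ α β z, |x.1 α β z| ≤ n * |y.1 α β z| := by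
  refine exists_congr fun n => ?_
  rw [GG.le_iff]
  refine forall_congr' fun α => forall_congr' fun β => forall_congr' fun z => ?_
  rw [GG.coe_abs, GG.coe_nsmul, GG.coe_abs]

theorem eqv_const_R1 {e : ℝ} (he : 0 ≤ e) : Eqv (fun _ : Z => e) (R1 fun _ => e) := by
  constructor
  · refine Dom.of_le fun z => ?_
    have := one_le_tv z.2
    simp only [R1]
    nlinarith
  · refine ⟨2, fun z => ?_⟩
    have := tv_le_two z.2
    simp only [R1]
    push_cast
    nlinarith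

theorem eqv_uu (e : ℝ) (α : κ) (β : κ ⊕ B) :
    Eqv (|fun z => e * uu α β z|) (fun _ => |e|) := by
  have h : ∀ z, (|fun z => e * uu α β z|) z = |e| * uu α β z := fun z => by
    show |e * uu α β z| = _
    rw [abs_mul, abs_of_nonneg (zero_le_one.trans (one_le_uu α β z))]
  have h0 := abs_nonneg e
  constructor
  · refine ⟨2, fun z => ?_⟩
    rw [h]
    have := uu_le_two α β z
    push_cast
    nlinarith
  · refine Dom.of_le fun z => ?_
    rw [h]
    have := one_le_uu α β z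
    nlinarith

theorem abs_R1 (c : Z0 → ℝ) : |R1 c| = R1 |c| := by
  funext z
  show |tv z.2 * c z.1| = tv z.2 * |c z.1|
  rw [abs_mul, abs_of_pos (tv_pos z.2)]

theorem abs_R2 (c : Z0 → ℝ) : |R2 c| = R2 |c| := rfl

variable {ν : Cardinal.{u}}

/-- The family of an element. -/
theorem isFam_abs (hI : ∀ δ : κ, #(Set.Iio δ) ≤ ν) (x : GG κ B) :
    IsFam ν (Set.range (Sum.inl : κ → κ ⊕ B)) (fun α β => |x.1 α β|) where
  nonneg := fun α β z => abs_nonneg (x.1 α β z)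
  mem := fun α β => lsub_D12.abs (x.2.mem α β)
  fin := by
    refine (x.2.fin.image fun a => |a|).subset ?_
    rintro _ ⟨p, rfl⟩
    exact ⟨_, ⟨p, rfl⟩, rfl⟩
  ctl := by
    obtain ⟨δ, c, d, e, h⟩ := x.2.dat
    refine ⟨Set.Iio δ, Td B δ, hI δ, mk_image_le.trans (hI δ), Set.image_subset_range _ _,
      ⟨fun α => ?_, fun β => ?_, ?_⟩⟩
    · by_cases hα : α < δ
      · refine ⟨|c α|, lsub_D1.abs (h.hc α), fun z => abs_nonneg (c α z), fun β hβ => ?_⟩
        rw [h.h1 α hα β hβ, abs_R1]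
        exact Eqv.refl _
      · refine ⟨fun _ => |e|, const_mem_D1 _, fun _ => abs_nonneg e, fun β hβ => ?_⟩
        rw [h.h3 α (not_lt.1 hα) β hβ]
        exact (eqv_uu e α β).trans (eqv_const_R1 (abs_nonneg e))
    · by_cases hβ : β ∈ Td B δ
      · obtain ⟨b, hb, rfl⟩ := hβ
        refine ⟨|d b|, lsub_D2.abs (h.hd b), fun z => abs_nonneg (d b z), fun α hα => ?_⟩
        rw [h.h2 α (not_lt.1 hα) b hb, abs_R2]
        exact Eqv.refl _
      · refine ⟨fun _ => |e|, const_mem_D2 _, fun _ => abs_nonneg e, fun α hα => ?_⟩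
        rw [h.h3 α (not_lt.1 hα) β hβ]
        exact eqv_uu e α β
    · refine ⟨|e|, abs_nonneg e, fun α hα β hβ => ?_⟩
      rw [h.h3 α (not_lt.1 hα) β hβ]
      exact eqv_uu e α β

/-- Each family comes from an element. -/
theorem exists_elem (hν : ℵ₀ ≤ ν)
    (hb : ∀ S : Set κ, #S ≤ ν → ∃ δ, S ⊆ Set.Iio δ)
    (w : Fam ν κ (Set.range (Sum.inl : κ → κ ⊕ B))) :
    ∃ x : GG κ B, (∀ α β z, 0 ≤ x.1 α β z) ∧ ∀ α β, Eqv (x.1 α β) (w.1 α β) := by
  classical
  obtain ⟨S, T, hS, hT, hTA, hc⟩ := w.2.ctl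
  have hT' : #(Sum.inl ⁻¹' T : Set κ) ≤ ν :=
    (mk_preimage_of_injective _ T Sum.inl_injective).trans hT
  obtain ⟨δ, hδ⟩ := hb _ (small_union hν hS hT')
  have hc' : Ctl (Set.Iio δ) (Td B δ) w.1 := by
    refine hc.mono (fun a ha => hδ (Or.inl ha)) fun b hb => ?_
    obtain ⟨a, rfl⟩ := hTA hb
    exact ⟨a, hδ (Or.inr hb), rfl⟩
  let C₁ : (Z → ℝ) → Z0 → ℝ := fun v =>
    if h : ∃ c ∈ D1, (∀ z, 0 ≤ c z) ∧ Eqv v (R1 c) then h.choose else 0
  let C₂ : (Z → ℝ) → Z0 → ℝ := fun v =>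
    if h : ∃ c ∈ D2, (∀ z, 0 ≤ c z) ∧ Eqv v (R2 c) then h.choose else 0
  have hC₁ : ∀ v, C₁ v ∈ D1 ∧ (∀ z, 0 ≤ C₁ v z) := by
    intro v
    simp only [C₁]
    split_ifs with h
    · exact ⟨h.choose_spec.1, h.choose_spec.2.1⟩
    · exact ⟨lsub_D1.zero, fun _ => le_rfl⟩
  have hC₂ : ∀ v, C₂ v ∈ D2 ∧ (∀ z, 0 ≤ C₂ v z) := by
    intro v
    simp only [C₂]
    split_ifs with h
    · exact ⟨h.choose_spec.1, h.choose_spec.2.1⟩
    · exact ⟨lsub_D2.zero, fun _ => le_rfl⟩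
  have hC₁' : ∀ v, (∃ c ∈ D1, (∀ z, 0 ≤ c z) ∧ Eqv v (R1 c)) → Eqv v (R1 (C₁ v)) := by
    intro v h
    have : C₁ v = h.choose := dif_pos h
    rw [this]
    exact h.choose_spec.2.2
  have hC₂' : ∀ v, (∃ c ∈ D2, (∀ z, 0 ≤ c z) ∧ Eqv v (R2 c)) → Eqv v (R2 (C₂ v)) := by
    intro v h
    have : C₂ v = h.choose := dif_pos h
    rw [this]
    exact h.choose_spec.2.2
  obtain ⟨e, he, he3⟩ := hc'.c3
  have hδδ : (Sum.inl δ : κ ⊕ B) ∉ Td B δ := inl_notMem_Td le_rfl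
  let y : κ → κ ⊕ B → Z → ℝ := fun α β =>
    if α < δ then (if β ∈ Td B δ then w.1 α β else R1 (C₁ (w.1 α (Sum.inl δ))))
    else (if β ∈ Td B δ then R2 (C₂ (w.1 δ β)) else fun z => e * uu α β z)
  have y1 : ∀ α < δ, ∀ β ∈ Td B δ, y α β = w.1 α β := fun α hα β hβ => by
    simp only [y]
    rw [if_pos hα, if_pos hβ]
  have y2 : ∀ α < δ, ∀ β ∉ Td B δ, y α β = R1 (C₁ (w.1 α (Sum.inl δ))) := fun α hα β hβ => by
    simp only [y]
    rw [if_pos hα, if_neg hβ]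
  have y3 : ∀ α, ¬ α < δ → ∀ β ∈ Td B δ, y α β = R2 (C₂ (w.1 δ β)) := fun α hα β hβ => by
    simp only [y]
    rw [if_neg hα, if_pos hβ]
  have y4 : ∀ α, ¬ α < δ → ∀ β ∉ Td B δ, y α β = fun z => e * uu α β z := fun α hα β hβ => by
    simp only [y]
    rw [if_neg hα, if_neg hβ]
  have huu : ∀ (α : κ) (β : κ ⊕ B), (fun z => e * uu α β z) = (R1 fun _ => e) ∨
      (fun z => e * uu α β z) = R2 fun _ => e := by
    rintro α (b | b)
    · simp only [uu]
      split_ifs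
      · exact Or.inl (mul_R1 e)
      · exact Or.inr (mul_R2 e)
    · exact Or.inl (mul_R1 e)
  have hyG : InG y := by
    refine ⟨fun α β => ?_, ?_, δ, fun α => C₁ (w.1 α (Sum.inl δ)), fun b => C₂ (w.1 δ (Sum.inl b)),
      e, fun α => (hC₁ _).1, fun b => (hC₂ _).1, y2, fun α hα b hb => ?_, fun α hα β hβ => ?_⟩
    · by_cases hα : α < δ <;> by_cases hβ : β ∈ Td B δ
      · rw [y1 α hα β hβ]
        exact w.2.mem α β
      · rw [y2 α hα β hβ]
        exact R1_mem (hC₁ _).1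
      · rw [y3 α hα β hβ]
        exact R2_mem (hC₂ _).1
      · rw [y4 α hα β hβ]
        rcases huu α β with h | h <;> rw [h]
        · exact R1_mem (const_mem_D1 e)
        · exact R2_mem (const_mem_D2 e)
    · have hfin := ((w.2.fin.union (w.2.fin.image fun v => R1 (C₁ v))).union
        (w.2.fin.image fun v => R2 (C₂ v))).union (Set.toFinite {R1 fun _ => e, R2 fun _ => e})
      refine hfin.subset ?_
      rintro _ ⟨⟨α, β⟩, rfl⟩
      dsimp only
      by_cases hα : α < δ <;> by_cases hβ : β ∈ Td B δ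
      · rw [y1 α hα β hβ]
        exact Or.inl (Or.inl (Or.inl ⟨(α, β), rfl⟩))
      · rw [y2 α hα β hβ]
        exact Or.inl (Or.inl (Or.inr ⟨_, ⟨(α, Sum.inl δ), rfl⟩, rfl⟩))
      · rw [y3 α hα β hβ]
        exact Or.inl (Or.inr ⟨_, ⟨(δ, β), rfl⟩, rfl⟩)
      · rw [y4 α hα β hβ]
        rcases huu α β with h | h <;> rw [h]
        · exact Or.inr (Or.inl rfl)
        · exact Or.inr (Or.inr rfl)
    · exact y3 α (not_lt.2 hα) _ (inl_mem_Td hb)
    · exact y4 α (not_lt.2 hα) β hβ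
  refine ⟨⟨y, hyG⟩, fun α β z => ?_, fun α β => ?_⟩
  · show 0 ≤ y α β z
    by_cases hα : α < δ <;> by_cases hβ : β ∈ Td B δ
    · rw [y1 α hα β hβ]
      exact w.2.nonneg α β z
    · rw [y2 α hα β hβ]
      exact R1_nonneg (hC₁ _).2 z
    · rw [y3 α hα β hβ]
      exact R2_nonneg (hC₂ _).2 z
    · rw [y4 α hα β hβ]
      exact mul_nonneg he (zero_le_one.trans (one_le_uu α β z))
  · show Eqv (y α β) (w.1 α β)
    by_cases hα : α < δ <;> by_cases hβ : β ∈ Td B δ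
    · rw [y1 α hα β hβ]
      exact Eqv.refl _
    · rw [y2 α hα β hβ]
      obtain ⟨c, hcD, hc0, hcE⟩ := hc'.c1 α
      have h1 := hC₁' (w.1 α (Sum.inl δ)) ⟨c, hcD, hc0, hcE _ hδδ⟩
      exact h1.symm.trans ((hcE _ hδδ).trans (hcE _ hβ).symm)
    · rw [y3 α hα β hβ]
      obtain ⟨c, hcD, hc0, hcE⟩ := hc'.c2 β
      have h2 : δ ∉ Set.Iio δ := lt_irrefl δ
      have h1 := hC₂' (w.1 δ β) ⟨c, hcD, hc0, hcE _ h2⟩
      exact h1.symm.trans ((hcE _ h2).trans (hcE _ hα).symm)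
    · rw [y4 α hα β hβ]
      have h1 := eqv_uu (κ := κ) (B := B) e α β
      have h2 : (|fun z => e * uu α β z|) = fun z => e * uu α β z := by
        funext z
        exact abs_of_nonneg (mul_nonneg he (zero_le_one.trans (one_le_uu α β z)))
      rw [h2, abs_of_nonneg he] at h1
      exact h1.trans (he3 α hα β hβ).symm

/-- The lattice belongs to `C_u`. -/
theorem inCu [hν : Fact (ℵ₀ ≤ ν)] (hI : ∀ δ : κ, #(Set.Iio δ) ≤ ν)
    (hb : ∀ S : Set κ, #S ≤ ν → ∃ δ, S ⊆ Set.Iio δ) :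
    InCu (FLat ν κ (Set.range (Sum.inl : κ → κ ⊕ B))) := by
  obtain ⟨δ₀, -⟩ := hb ∅ (by simp)
  have : Nonempty κ := ⟨δ₀⟩
  refine ⟨GG κ B, inferInstance, inferInstance, inferInstance, fun x y h => ?_,
    ⟨⟨_, inG_uu⟩, fun α β z => zero_le_one.trans (one_le_uu α β z), fun x => ?_⟩,
    iso_of_map (fun x => FLat.mk ⟨_, isFam_abs hI x⟩) (fun m => ?_) fun x y => ?_⟩
  · intro α β z
    show x.1 α β z ≤ 0
    by_contra hx
    rw [not_le] at hx
    obtain ⟨n, hn⟩ := exists_nat_gt (y.1 α β z / x.1 α β z)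
    rw [div_lt_iff₀ hx] at hn
    have h1 := h (n + 1) (by omega) α β z
    rw [GG.coe_nsmul] at h1
    push_cast at h1
    nlinarith
  · obtain ⟨n, hn⟩ := uniform (isFam_abs hI x).fin
      (y := fun _ _ _ => 1) ((Set.finite_singleton (fun _ : Z => (1 : ℝ))).subset (by
        rintro _ ⟨p, rfl⟩
        rfl)) (fun _ _ _ => zero_le_one) (fun α β => by
        obtain ⟨K, hK⟩ := ((isFam_abs hI x).mem α β).1
        obtain ⟨n, hn⟩ := exists_nat_gt K
        exact ⟨n, fun z => by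
          simp only [mul_one]
          exact ((le_abs_self _).trans (hK z)).trans hn.le⟩)
    refine ⟨n + 1, by omega, fun α β z => ?_⟩
    rw [GG.coe_nsmul]
    have h1 := hn α β z
    have h2 := one_le_uu α β z
    have h3 : x.1 α β z ≤ (|x.1 α β|) z := le_abs_self _
    have h4 : (0 : ℝ) ≤ n := Nat.cast_nonneg n
    push_cast
    simp only [mul_one] at h1
    nlinarith
  · obtain ⟨w, rfl⟩ := FLat.ind m
    obtain ⟨x, hx0, hx⟩ := exists_elem hν.out hb w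
    refine ⟨x, le_antisymm ((FLat.mk_le _ _).2 fun α β => ?_) ((FLat.mk_le _ _).2 fun α β => ?_)⟩
    · have h1 : |x.1 α β| = x.1 α β := by
        funext z
        exact abs_of_nonneg (hx0 α β z)
      show Dom |x.1 α β| (w.1 α β)
      rw [h1]
      exact (hx α β).1
    · have h1 : |x.1 α β| = x.1 α β := by
        funext z
        exact abs_of_nonneg (hx0 α β z)
      show Dom (w.1 α β) |x.1 α β|
      rw [h1]
      exact (hx α β).2
  · refine (FLat.mk_le _ _).trans ?_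
    rw [GG.le_nsmul_iff]
    constructor
    · intro h
      exact uniform (isFam_abs hI x).fin (isFam_abs hI y).fin (isFam_abs hI y).nonneg h
    · rintro ⟨n, hn⟩ α β
      exact ⟨n, fun z => hn α β z⟩

end

end Pool.Agent.Q216.WL
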