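import Pool.Agent.Q216.WL.Defs

/-!
Satisfaction depends on the free variables only, is invariant under isomorphisms, and a criterion for
elementary embeddings with respect to infinitary formulas.
-/

namespace Pool.Agent.Q216.WL

universe u

theorem Tm.val_congr {V L : Type u} [Lattice L] (t : Tm V) (v w : V → L)
    (h : ∀ x ∈ t.vars, v x = w x) : t.val v = t.val w := by
  induction t with
  | var x => exact h x rfl
  | sup s t hs ht =>
    simp only [Tm.val]
    rw [hs fun x hx => h x (Or.inl hx), ht fun x hx => h x (Or.inr hx)]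
  | inf s t hs ht =>
    simp only [Tm.val]
    rw [hs fun x hx => h x (Or.inl hx), ht fun x hx => h x (Or.inr hx)]

theorem Fm.sat_congr {V L : Type u} [Lattice L] (φ : Fm V) : ∀ (v w : V → L),
    (∀ x ∈ φ.free, v x = w x) → (φ.Sat v ↔ φ.Sat w) := by
  induction φ with
  | eq s t =>
    intro v w h
    simp only [Fm.Sat]
    rw [s.val_congr v w fun x hx => h x (Or.inl hx), t.val_congr v w fun x hx => h x (Or.inr hx)]
  | neg φ ih =>
    intro v w h
    exact not_congr (ih v w h)
  | conj I φ ih =>
    intro v w h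
    exact forall_congr' fun i => ih i v w fun x hx => h x (Set.mem_iUnion.2 ⟨i, hx⟩)
  | ex X φ ih =>
    intro v w h
    have key : ∀ v w : V → L, (∀ x ∈ φ.free \ X, v x = w x) → (Fm.ex X φ).Sat v →
        (Fm.ex X φ).Sat w := by
      rintro v w h ⟨a, ha, hs⟩
      classical
      refine ⟨fun x => if x ∈ X then a x else w x, fun x hx => if_neg hx, ?_⟩
      refine (ih a _ fun x hx => ?_).1 hs
      by_cases hX : x ∈ X
      · simp [hX]
      · simp only [hX, if_false]
        rw [ha x hX]
        exact h x ⟨hx, hX⟩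
    exact ⟨key v w h, key w v fun x hx => (h x hx).symm⟩

theorem Tm.val_map {V L L' : Type u} [Lattice L] [Lattice L'] (f : LatticeHom L L') (t : Tm V)
    (v : V → L) : t.val (fun x => f (v x)) = f (t.val v) := by
  induction t with
  | var x => rfl
  | sup s t hs ht => simp only [Tm.val, hs, ht, map_sup]
  | inf s t hs ht => simp only [Tm.val, hs, ht, map_inf]

theorem Tm.val_iso {V L L' : Type u} [Lattice L] [Lattice L'] (f : L ≃o L') (t : Tm V)
    (v : V → L) : t.val (fun x => f (v x)) = f (t.val v) := by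
  induction t with
  | var x => rfl
  | sup s t hs ht => simp only [Tm.val, hs, ht, map_sup]
  | inf s t hs ht => simp only [Tm.val, hs, ht, map_inf]

theorem Fm.sat_iso {V L : Type u} [Lattice L] (f : L ≃o L) (φ : Fm V) : ∀ v : V → L,
    φ.Sat (fun x => f (v x)) ↔ φ.Sat v := by
  induction φ with
  | eq s t =>
    intro v
    simp only [Fm.Sat, Tm.val_iso, EmbeddingLike.apply_eq_iff_eq]
  | neg φ ih => exact fun v => not_congr (ih v)
  | conj I φ ih => exact fun v => forall_congr' fun i => ih i v
  | ex X φ ih =>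
    intro v
    constructor
    · rintro ⟨w, hw, hs⟩
      refine ⟨fun x => f.symm (w x), fun x hx => ?_, ?_⟩
      · have h1 := hw x hx
        simp only [h1, OrderIso.symm_apply_apply]
      · refine (ih _).1 ?_
        simpa using hs
    · rintro ⟨w, hw, hs⟩
      exact ⟨fun x => f (w x), fun x hx => congrArg f (hw x hx), (ih w).2 hs⟩

/-- The criterion. -/
theorem Fm.sat_emb {V N M : Type u} [Lattice N] [Lattice M] (ι : LatticeHom N M)
    (hι : Function.Injective ι)
    (h : ∀ (v : V → N) (w : V → M), ∃ (σ : M ≃o M) (w' : V → N),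
      (∀ x, σ (ι (v x)) = ι (v x)) ∧ ∀ x, σ (w x) = ι (w' x)) (φ : Fm V) :
    ∀ v : V → N, φ.Sat v ↔ φ.Sat (fun x => ι (v x)) := by
  induction φ with
  | eq s t =>
    intro v
    simp only [Fm.Sat, Tm.val_map]
    exact hι.eq_iff.symm
  | neg φ ih => exact fun v => not_congr (ih v)
  | conj I φ ih => exact fun v => forall_congr' fun i => ih i v
  | ex X φ ih =>
    intro v
    constructor
    · rintro ⟨w, hw, hs⟩
      exact ⟨fun x => ι (w x), fun x hx => congrArg ι (hw x hx), (ih w).1 hs⟩
    · rintro ⟨w, hw, hs⟩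
      obtain ⟨σ, w', h1, h2⟩ := h v w
      refine ⟨w', fun x hx => hι ?_, (ih w').2 ?_⟩
      · rw [← h2 x, hw x hx, h1 x]
      · have h3 : (fun x => ι (w' x)) = fun x => σ (w x) := funext fun x => (h2 x).symm
        rw [h3]
        exact (Fm.sat_iso σ φ w).2 hs

/-- Sentences hold in `N` if and only if they hold in `M`. -/
theorem Fm.models_iff {V N M : Type u} [Lattice N] [Lattice M] [Nonempty N] (ι : LatticeHom N M)
    (hι : Function.Injective ι)
    (h : ∀ (v : V → N) (w : V → M), ∃ (σ : M ≃o M) (w' : V → N),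
      (∀ x, σ (ι (v x)) = ι (v x)) ∧ ∀ x, σ (w x) = ι (w' x)) (φ : Fm V) (hφ : φ.IsSentence) :
    Models N φ ↔ Models M φ := by
  have h0 : ∀ x, x ∉ φ.free := fun x hx => by
    rw [show φ.free = ∅ from hφ] at hx
    exact hx
  obtain ⟨n⟩ := ‹Nonempty N›
  constructor
  · intro hN v
    exact (φ.sat_congr _ v fun x hx => absurd hx (h0 x)).1
      ((φ.sat_emb ι hι h fun _ => n).1 (hN _))
  · intro hM v
    exact (φ.sat_emb ι hι h v).2 (hM _)

end Pool.Agent.Q216.WL
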