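import Pool.Agent.Q216.WL.Pos

/-!
The lattice `FLat ν κ univ` is not isomorphic to `Id_c G` for any Abelian `ℓ`-group `G` with
order-unit if there are many columns.
-/

namespace Pool.Agent.Q216.WL

open Cardinal Filter Topology

universe u

/-- Near a ray there are no points of a sequence which meets each strip finitely often. -/
theorem eventually_notMem_range {zs : ℕ → Z0} (h : ∀ r : ℝ, {j | |(zs j).1 - r| < 1}.Finite)
    (r : ℝ) : ∀ᶠ z in near r, z ∉ Set.range zs := by
  obtain ⟨K, hK⟩ := ((h r).image fun j => (zs j).2).bddAbove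
  have h1 : ∀ᶠ z : Z0 in near r, K < z.2 :=
    (tendsto_snd (f := 𝓝 r) (g := atTop)).eventually (eventually_gt_atTop K)
  have h2 : ∀ᶠ z : Z0 in near r, |z.1 - r| < 1 := by
    have : ∀ᶠ x : ℝ in 𝓝 r, |x - r| < 1 := by
      have := Metric.ball_mem_nhds r one_pos
      filter_upwards [this] with x hx
      rwa [← Real.dist_eq]
    exact (tendsto_fst (f := 𝓝 r) (g := atTop)).eventually this
  filter_upwards [h1, h2] with z h3 h4
  rintro ⟨j, rfl⟩
  exact absurd (hK ⟨j, h4, rfl⟩) h3.not_ge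

open Classical in
theorem indicator_mem {zs : ℕ → Z0} (h : ∀ r : ℝ, {j | |(zs j).1 - r| < 1}.Finite) {g : Z0 → ℝ}
    (hg0 : ∀ z, 0 < g z) (hg1 : ∀ z, g z ≤ 1) :
    (fun p : Z => if p.1 ∈ Set.range zs ∧ p.2 = false then g p.1 else 0) ∈ D12 := by
  refine ⟨⟨1, fun p => ?_⟩, fun s r _ => ⟨_, ⟨0, 0, 0, rfl⟩, ?_⟩⟩
  · dsimp only
    split_ifs
    · rw [abs_of_pos (hg0 _)]
      exact hg1 _
    · simp
  · filter_upwards [eventually_notMem_range h r] with z hz
    rw [if_neg fun h => hz h.1]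
    simp

/-- A predicate on the points which is all or nothing near each ray is constant on large scales. -/
theorem crossing {E : Z0 → Prop} (h : ∀ r, (∀ᶠ z in near r, E z) ∨ ∀ᶠ z in near r, ¬ E z)
    (h1 : ∃ C : ℝ, ∀ z : Z0, C ≤ z.1 → E z) (h0 : ∃ C : ℝ, ∀ z : Z0, z.1 ≤ C → ¬ E z) : False := by
  have hne : ∀ r, (near r).NeBot := fun r => by unfold near; infer_instance
  have hopen : ∀ p : Z0 → Prop, IsOpen {r : ℝ | ∀ᶠ z in near r, p z} := by
    intro p
    rw [isOpen_iff_mem_nhds]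
    intro r hr
    obtain ⟨pa, ha, pb, hb, hp⟩ := eventually_prod_iff.1 hr
    have := eventually_eventually_nhds.2 ha
    filter_upwards [this] with x hx
    exact eventually_prod_iff.2 ⟨pa, hx, pb, hb, hp⟩
  have hcl : IsClopen {r : ℝ | ∀ᶠ z in near r, E z} := by
    refine ⟨⟨?_⟩, hopen E⟩
    have : {r : ℝ | ∀ᶠ z in near r, E z}ᶜ = {r : ℝ | ∀ᶠ z in near r, ¬ E z} := by
      ext r
      constructor
      · intro hr
        exact (h r).resolve_left hr
      · intro hr hr'
        have h3 : ∀ᶠ z in near r, ¬ E z := hr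
        have h4 : ∀ᶠ z in near r, E z := hr'
        obtain ⟨z, hz, hz'⟩ := (h3.and h4).exists
        exact hz hz'
    rw [this]
    exact hopen _
  have hfst : ∀ r : ℝ, ∀ p : ℝ → Prop, (∀ᶠ x in 𝓝 r, p x) → ∀ᶠ z in near r, p z.1 := fun r p hp =>
    (tendsto_fst (f := 𝓝 r) (g := atTop)).eventually hp
  obtain ⟨C, hC⟩ := h1
  obtain ⟨C', hC'⟩ := h0
  rcases isClopen_iff.1 hcl with h2 | h2
  · have h3 : C + 1 ∈ {r : ℝ | ∀ᶠ z in near r, E z} := by
      refine (hfst (C + 1) (fun x => C ≤ x) ?_).mono fun z hz => hC z hz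
      exact (eventually_ge_nhds (by linarith))
    rw [h2] at h3
    exact h3
  · have h3 : C' - 1 ∈ {r : ℝ | ∀ᶠ z in near r, E z} := by
      rw [h2]
      exact Set.mem_univ _
    have h4 : ∀ᶠ z in near (C' - 1), ¬ E z := by
      refine (hfst (C' - 1) (fun x => x ≤ C') ?_).mono fun z hz => hC' z hz
      exact (eventually_le_nhds (by linarith))
    obtain ⟨z, hz, hz'⟩ := (h4.and h3).exists
    exact hz hz'

section
set_option linter.unusedSectionVars false
variable {G : Type u} [AddCommGroup G] [Lattice G] [IsOrderedAddMonoid G]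
variable {κ μ : Type u} {ν : Cardinal.{u}} {f : G → Fam ν κ (Set.univ : Set μ)} (hf : Rp f)
include hf

/-- Invariance of positivity under the change of the copy. -/
theorem Rp.copy1 {S : Set κ} {T : Set μ} {x : G} (h : Ctl S T (f (x ⊔ 0)).1) {α : κ} {β : μ}
    (hβ : β ∉ T) {z : Z0} {s s' : Bool} (hx : Pos f α β (z, s) x) : Pos f α β (z, s') x := by
  obtain ⟨c, -, hc0, hc⟩ := h.c1 α
  have h1 : 0 < R1 c (z, s) := (hc β hβ).pos (R1_nonneg hc0) hx
  have h2 : 0 < R1 c (z, s') := by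
    simp only [R1] at h1 ⊢
    exact mul_pos (tv_pos _) (pos_of_mul_pos_right h1 (tv_pos _).le)
  exact (hc β hβ).symm.pos ((f _).2.nonneg α β) h2

theorem Rp.copy2 {S : Set κ} {T : Set μ} {x : G} (h : Ctl S T (f (x ⊔ 0)).1) {α : κ} {β : μ}
    (hα : α ∉ S) {z : Z0} {s s' : Bool} (hx : Pos f α β (z, s) x) : Pos f α β (z, s') x := by
  obtain ⟨c, -, hc0, hc⟩ := h.c2 β
  have h1 : 0 < R2 c (z, s) := (hc α hα).pos (R2_nonneg hc0) hx
  exact (hc α hα).symm.pos ((f _).2.nonneg α β) (z := (z, s')) h1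

/-- The local contradiction. -/
theorem Rp.local_false (hν : ℵ₀ ≤ ν) {e : G} (he : 0 ≤ e) (hu : ∀ x : G, ∃ n : ℕ, 1 ≤ n ∧ x ≤ n • e)
    {g₁ g₂ : G} (hg₁ : 0 ≤ g₁) (hg₂ : 0 ≤ g₂) {α : κ} {β : μ}
    (h1 : Eqv ((f g₁).1 α β) (R1 aa)) (h2 : Eqv ((f g₂).1 α β) (R2 bb))
    (hc1 : ∀ n m : ℕ, ∃ S T, β ∉ T ∧ Ctl S T (f ((n • g₁ - m • e) ⊔ 0)).1)
    (hc2 : ∀ n m : ℕ, ∃ S T, α ∉ S ∧ Ctl S T (f ((m • e - n • g₂) ⊔ 0)).1) : False := by
  classical
  -- positivity of `g₁ - g₂` does not depend on the copy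
  have hcopy : ∀ z s s', Pos f α β (z, s) (g₁ - g₂) → Pos f α β (z, s') (g₁ - g₂) := by
    intro z s s' h
    obtain ⟨n, m, h3, h4⟩ := hf.between he hu hν hg₂ h
    obtain ⟨S, T, hβ, hc⟩ := hc1 n m
    obtain ⟨S', T', hα, hc'⟩ := hc2 n m
    have h5 := hf.copy2 hc' hα (s' := s') h3
    have h6 := hf.copy1 hc hβ (s' := s') h4
    have h7 := hf.pos_add hν h5 h6
    have h8 : m • e - n • g₂ + (n • g₁ - m • e) = n • (g₁ - g₂) := by
      rw [nsmul_sub]
      abel
    rw [h8] at h7
    exact hf.pos_of_nsmul hν h7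
  refine crossing (E := fun z => Pos f α β (z, false) (g₁ - g₂)) ?_ ?_ ?_
  · intro r
    obtain ⟨s, hs⟩ := exists_copy r
    rcases all_or_nothing ((f ((g₁ - g₂) ⊔ 0)).2.mem α β) hs with h | h
    · left
      filter_upwards [h] with z hz
      refine hcopy z s false ?_
      exact lt_of_le_of_ne ((f _).2.nonneg α β _) (Ne.symm hz)
    · right
      filter_upwards [h] with z hz h3
      have h4 := hcopy z false s h3
      unfold Pos at h4
      rw [hz] at h4
      exact lt_irrefl _ h4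
  · by_contra hcon
    push Not at hcon
    choose zs hz1 hz2 using fun j : ℕ => hcon (j : ℝ)
    have hfin : ∀ r : ℝ, {j | |(zs j).1 - r| < 1}.Finite := by
      intro r
      obtain ⟨N, hN⟩ := exists_nat_gt (r + 1)
      refine (Set.finite_Iio N).subset fun j hj => ?_
      have h3 := (abs_lt.1 (show |(zs j).1 - r| < 1 from hj)).2
      have h4 := hz1 j
      have h5 : (j : ℝ) < N := by linarith
      exact_mod_cast h5
    obtain ⟨s, hs, hs1, hs2⟩ := hf.surj ⟨_, isFam_single hν α β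
      (indicator_mem hfin aa_pos aa_le_one) (fun p => by
        split_ifs
        · exact (aa_pos _).le
        · exact le_rfl)⟩
    -- `s` is dominated by `g₁`
    have h3 : f s ≤ f g₁ := by
      refine hs1.trans fun α' β' => ?_
      by_cases h : α' = α ∧ β' = β
      · obtain ⟨rfl, rfl⟩ := h
        refine Dom.trans ?_ h1.2
        refine Dom.of_le fun p => ?_
        simp only [and_self, if_true]
        split_ifs with hp
        · simp only [R1]
          nlinarith [one_le_tv p.2, aa_pos p.1]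
        · exact R1_nonneg (fun z => (aa_pos z).le) p
      · refine ⟨0, fun z' => ?_⟩
        simp only [if_neg h]
        simp
    obtain ⟨N, hN⟩ := (le_of_nonneg hs hg₁).1 ((hf.le _ _).1 h3)
    have h4 : s - N • g₂ ≤ 0 := by
      refine hf.le_zero fun α' β' z' h => ?_
      by_cases hsup : (α' = α ∧ β' = β) ∧ (z'.1 ∈ Set.range zs ∧ z'.2 = false)
      · obtain ⟨⟨rfl, rfl⟩, ⟨j, hj⟩, hz'⟩ := hsup
        have h5 : s - N • g₂ ≤ N • (g₁ - g₂) := by
          rw [nsmul_sub]
          exact sub_le_sub_right hN _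
        have h6 := hf.pos_of_nsmul hν (hf.pos_mono h5 h)
        obtain ⟨z0, b0⟩ := z'
        simp only at hj hz'
        subst hj hz'
        exact hz2 j h6
      · have h5 : s - N • g₂ ≤ s := sub_le_self _ (nsmul_nonneg hg₂ N)
        have h6 := (hf.pos_iff hs).1 (hf.pos_mono h5 h)
        have h7 := (hs1 α' β').pos ((isFam_single (ν := ν) hν α β
          (indicator_mem hfin aa_pos aa_le_one) (fun p => by
            split_ifs
            · exact (aa_pos _).le
            · exact le_rfl)).nonneg α' β') h6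
        revert h7
        simp only
        by_cases h8 : α' = α ∧ β' = β
        · rw [if_pos h8, if_neg fun h => hsup ⟨h8, h⟩]
          exact lt_irrefl _
        · rw [if_neg h8]
          exact lt_irrefl _
    have h5 : f s ≤ f g₂ := (hf.le _ _).2 ((le_of_nonneg hs hg₂).2 ⟨N, sub_nonpos.1 h4⟩)
    obtain ⟨n, hn⟩ := ((hs2.trans h5) α β).trans h2.1
    have h6 := hn (zs n, false)
    simp only [and_self, if_true, Set.mem_range_self, R2] at h6
    have h7 : Real.exp (zs n).1 ≤ n := by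
      unfold aa at h6
      exact le_of_mul_le_mul_right h6 (bb_pos _)
    have h8 := Real.add_one_le_exp (zs n).1
    have h9 := hz1 n
    linarith
  · by_contra hcon
    push Not at hcon
    choose zs hz1 hz2 using fun j : ℕ => hcon (-(j : ℝ))
    have hfin : ∀ r : ℝ, {j | |(zs j).1 - r| < 1}.Finite := by
      intro r
      obtain ⟨N, hN⟩ := exists_nat_gt (1 - r)
      refine (Set.finite_Iio N).subset fun j hj => ?_
      have h3 := (abs_lt.1 (show |(zs j).1 - r| < 1 from hj)).1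
      have h4 := hz1 j
      have h5 : (j : ℝ) < N := by linarith
      exact_mod_cast h5
    obtain ⟨s, hs, hs1, hs2⟩ := hf.surj ⟨_, isFam_single hν α β
      (indicator_mem hfin bb_pos bb_le_one) (fun p => by
        split_ifs
        · exact (bb_pos _).le
        · exact le_rfl)⟩
    -- `s` is dominated by `g₂`
    have h3 : f s ≤ f g₂ := by
      refine hs1.trans fun α' β' => ?_
      by_cases h : α' = α ∧ β' = β
      · obtain ⟨rfl, rfl⟩ := h
        refine Dom.trans ?_ h2.2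
        refine Dom.of_le fun p => ?_
        simp only [and_self, if_true]
        split_ifs with hp
        · exact le_rfl
        · exact (bb_pos _).le
      · refine ⟨0, fun z' => ?_⟩
        simp only [if_neg h]
        simp
    obtain ⟨N, hN⟩ := (le_of_nonneg hs hg₂).1 ((hf.le _ _).1 h3)
    have h4 : s - N • g₁ ≤ 0 := by
      refine hf.le_zero fun α' β' z' h => ?_
      by_cases hsup : (α' = α ∧ β' = β) ∧ (z'.1 ∈ Set.range zs ∧ z'.2 = false)
      · obtain ⟨⟨rfl, rfl⟩, ⟨j, hj⟩, hz'⟩ := hsup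
        have h5 : s - N • g₁ ≤ N • -(g₁ - g₂) := by
          rw [neg_sub, nsmul_sub]
          exact sub_le_sub_right hN _
        have h6 := hf.pos_of_nsmul hν (hf.pos_mono h5 h)
        obtain ⟨z0, b0⟩ := z'
        simp only at hj hz'
        subst hj hz'
        exact hf.pos_neg hν (hz2 j) h6
      · have h5 : s - N • g₁ ≤ s := sub_le_self _ (nsmul_nonneg hg₁ N)
        have h6 := (hf.pos_iff hs).1 (hf.pos_mono h5 h)
        have h7 := (hs1 α' β').pos ((isFam_single (ν := ν) hν α β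
          (indicator_mem hfin bb_pos bb_le_one) (fun p => by
            split_ifs
            · exact (bb_pos _).le
            · exact le_rfl)).nonneg α' β') h6
        revert h7
        simp only
        by_cases h8 : α' = α ∧ β' = β
        · rw [if_pos h8, if_neg fun h => hsup ⟨h8, h⟩]
          exact lt_irrefl _
        · rw [if_neg h8]
          exact lt_irrefl _
    have h5 : f s ≤ f g₁ := (hf.le _ _).2 ((le_of_nonneg hs hg₁).2 ⟨N, sub_nonpos.1 h4⟩)
    obtain ⟨n, hn⟩ := ((hs2.trans h5) α β).trans h1.1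
    have h6 := hn (zs n, false)
    simp only [and_self, if_true, Set.mem_range_self, R1] at h6
    have h7 : 1 ≤ n * Real.exp (zs n).1 := by
      simp only [tv, Bool.false_eq_true, if_false, one_mul] at h6
      unfold aa at h6
      rw [← mul_assoc] at h6
      have h8 := bb_pos (zs n)
      by_contra hlt
      rw [not_le] at hlt
      nlinarith
    have h8 := Real.add_one_le_exp (n : ℝ)
    have h9 : Real.exp (zs n).1 ≤ Real.exp (-(n : ℝ)) := Real.exp_le_exp.2 (hz1 n)
    rw [Real.exp_neg] at h9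
    have h10 : (0 : ℝ) < Real.exp n := Real.exp_pos _
    have h11 : (n : ℝ) * Real.exp (zs n).1 ≤ n * (Real.exp n)⁻¹ :=
      mul_le_mul_of_nonneg_left h9 (Nat.cast_nonneg n)
    have h12 : (n : ℝ) * (Real.exp n)⁻¹ < 1 := by
      rw [← div_eq_mul_inv, div_lt_one h10]
      linarith
    linarith

end

/-- There is no representation with an order-unit. -/
theorem not_rp {G : Type u} [AddCommGroup G] [Lattice G] [IsOrderedAddMonoid G]
    {κ μ : Type u} {ν : Cardinal.{u}} (hν : ℵ₀ ≤ ν) (hκ : ν < #κ) (hμ : #κ < #μ)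
    {f : G → Fam ν κ (Set.univ : Set μ)} (hf : Rp f) {e : G} (he : 0 ≤ e)
    (hu : ∀ x : G, ∃ n : ℕ, 1 ≤ n ∧ x ≤ n • e) : False := by
  classical
  choose S T hS hT _ hc using fun x : G => (f x).2.ctl
  choose g₁ hg₁ hg₁a hg₁b using fun α : κ => hf.surj ⟨_, isFam_row (μ := μ) hν α⟩
  choose g₂ hg₂ hg₂a hg₂b using fun β : μ => hf.surj ⟨_, isFam_col (κ := κ) hν β⟩
  have hι : #(ULift.{u} (ℕ × ℕ)) ≤ ν := by
    rw [mk_uLift]
    simpa using hν
  let F : κ → Set μ := fun α => ⋃ q : ULift.{u} (ℕ × ℕ),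
    T ((q.down.1 • g₁ α - q.down.2 • e) ⊔ 0)
  let F' : μ → Set κ := fun β => ⋃ q : ULift.{u} (ℕ × ℕ),
    S ((q.down.2 • e - q.down.1 • g₂ β) ⊔ 0)
  have hF : ∀ α, #(F α) ≤ ν := fun α => small_iUnion hν hι fun q => hT _
  have hF' : ∀ β, #(F' β) ≤ ν := fun β => small_iUnion hν hι fun q => hS _
  obtain ⟨β, hβ⟩ : ∃ β, β ∉ ⋃ α, F α := by
    by_contra h
    push Not at h
    have h1 : (⋃ α, F α) = Set.univ := Set.eq_univ_of_forall h
    have h2 : #(⋃ α, F α : Set μ) ≤ #κ := by
      refine (mk_iUnion_le F).trans ?_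
      refine (mul_le_mul' le_rfl (ciSup_le' fun α => (hF α).trans hκ.le)).trans ?_
      exact (mul_eq_self (hν.trans hκ.le)).le
    rw [h1, mk_univ] at h2
    exact absurd h2 hμ.not_ge
  obtain ⟨α, hα⟩ : ∃ α, α ∉ F' β := by
    by_contra h
    push Not at h
    have h1 : F' β = Set.univ := Set.eq_univ_of_forall h
    have h2 := hF' β
    rw [h1, mk_univ] at h2
    exact absurd h2 hκ.not_ge
  have h1 : Eqv ((f (g₁ α)).1 α β) (R1 aa) := by
    have h3 := hg₁a α α β
    have h4 := hg₁b α α β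
    simp only [if_true] at h3 h4
    exact ⟨h3, h4⟩
  have h2 : Eqv ((f (g₂ β)).1 α β) (R2 bb) := by
    have h3 := hg₂a β α β
    have h4 := hg₂b β α β
    simp only [if_true] at h3 h4
    exact ⟨h3, h4⟩
  refine hf.local_false hν he hu (hg₁ α) (hg₂ β) h1 h2 (fun n m => ?_) (fun n m => ?_)
  · refine ⟨_, _, ?_, hc _⟩
    intro h
    exact hβ (Set.mem_iUnion.2 ⟨α, Set.mem_iUnion.2 ⟨⟨(n, m)⟩, h⟩⟩)
  · refine ⟨_, _, ?_, hc _⟩
    intro h
    exact hα (Set.mem_iUnion.2 ⟨⟨(n, m)⟩, h⟩)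

/-- The lattice with many columns is not in `C_u`. -/
theorem not_inAu {κ μ : Type u} {ν : Cardinal.{u}} [hν : Fact (ℵ₀ ≤ ν)] (hκ : ν < #κ)
    (hμ : #κ < #μ) : ¬ InAu (FLat ν κ (Set.univ : Set μ)) := by
  rintro ⟨G, _, _, _, ⟨e, he, hu⟩, ⟨i⟩⟩
  obtain ⟨P, hP, hle⟩ := map_of_iso i
  choose f hfP using fun x : G => FLat.ind (P x)
  have hf : Rp f := by
    refine ⟨fun x y => ?_, fun w => ?_⟩
    · rw [← hle, ← hfP, ← hfP, FLat.mk_le]
    · obtain ⟨x, hx, h⟩ := hP (FLat.mk w)
      rw [← hfP] at h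
      exact ⟨x, hx, (FLat.mk_le _ _).1 h.le, (FLat.mk_le _ _).1 h.ge⟩
  exact not_rp hν.out hκ hμ hf he hu

end Pool.Agent.Q216.WL
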