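import Pool.Agent.Q216.WL.Fam
import Pool.Agent.Q216.WL.Idc

/-!
The points as total orders of an `ℓ`-group represented by families.
-/

namespace Pool.Agent.Q216.WL

open Cardinal

universe u

/-- Surjections from an `ℓ`-group to the families. -/
structure Rp {G : Type u} [AddCommGroup G] [Lattice G] {ν : Cardinal.{u}} {κ μ : Type u}
    (f : G → Fam ν κ (Set.univ : Set μ)) : Prop where
  le : ∀ x y, f x ≤ f y ↔ Le x y
  surj : ∀ w, ∃ x, 0 ≤ x ∧ f x ≤ w ∧ w ≤ f x

section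
variable {κ μ : Type u} {ν : Cardinal.{u}}

theorem isFam_const (ν : Cardinal.{u}) (κ : Type u) {μ : Type u} (A : Set μ) {e : ℝ} (he : 0 ≤ e) :
    IsFam ν A (fun (_ : κ) (_ : μ) (_ : Z) => e) where
  nonneg := fun _ _ _ => he
  mem := fun _ _ => R2_mem (const_mem_D2 e)
  fin := (Set.finite_singleton (fun _ : Z => e)).subset (by
    rintro _ ⟨p, rfl⟩
    rfl)
  ctl := by
    have hR : Eqv (fun _ : Z => e) (R1 fun _ => e) := by
      constructor
      · refine Dom.of_le fun z => ?_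
        have := one_le_tv z.2
        simp only [R1]
        nlinarith
      · refine ⟨2, fun z => ?_⟩
        have := tv_le_two z.2
        simp only [R1]
        push_cast
        nlinarith
    refine ⟨∅, ∅, by simp, by simp, Set.empty_subset _, ⟨fun α => ?_, fun β => ?_, ?_⟩⟩
    · exact ⟨_, const_mem_D1 e, fun _ => he, fun β _ => hR⟩
    · exact ⟨_, const_mem_D2 e, fun _ => he, fun β _ => Eqv.refl _⟩
    · exact ⟨e, he, fun _ _ _ _ => Eqv.refl _⟩

theorem small_singleton (hν : ℵ₀ ≤ ν) {X : Type u} (x : X) : #({x} : Set X) ≤ ν := by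
  rw [mk_singleton]
  exact one_le_aleph0.trans hν

theorem eqv_zero_R1 : Eqv 0 (R1 0) := by
  have : R1 0 = 0 := by
    funext z
    simp [R1]
  rw [this]
  exact Eqv.refl _

theorem eqv_zero_R2 : Eqv 0 (R2 0) := Eqv.refl _

open Classical in
theorem isFam_single (hν : ℵ₀ ≤ ν) (α : κ) (β : μ) {y : Z → ℝ} (hy : y ∈ D12) (hy0 : ∀ z, 0 ≤ y z) :
    IsFam ν Set.univ (fun α' β' => if α' = α ∧ β' = β then y else 0) where
  nonneg := fun α' β' z => by
    split_ifs
    · exact hy0 z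
    · exact le_rfl
  mem := fun α' β' => by
    split_ifs
    · exact hy
    · exact lsub_D12.zero
  fin := (Set.toFinite {y, 0}).subset (by
    rintro _ ⟨p, rfl⟩
    dsimp only
    split_ifs
    · exact Or.inl rfl
    · exact Or.inr rfl)
  ctl := by
    refine ⟨{α}, {β}, small_singleton hν α, small_singleton hν β, Set.subset_univ _,
      ⟨fun α' => ?_, fun β' => ?_, ?_⟩⟩
    · refine ⟨0, lsub_D1.zero, fun _ => le_rfl, fun β' hβ' => ?_⟩
      rw [if_neg fun h => hβ' h.2]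
      exact eqv_zero_R1
    · refine ⟨0, lsub_D2.zero, fun _ => le_rfl, fun α' hα' => ?_⟩
      rw [if_neg fun h => hα' h.1]
      exact eqv_zero_R2
    · refine ⟨0, le_rfl, fun α' hα' β' hβ' => ?_⟩
      rw [if_neg fun h => hα' h.1]
      exact Eqv.refl _

open Classical in
theorem isFam_row (hν : ℵ₀ ≤ ν) (α : κ) :
    IsFam ν (Set.univ : Set μ) (fun α' _ => if α' = α then R1 aa else 0) where
  nonneg := fun α' β' z => by
    split_ifs
    · exact R1_nonneg (fun z => (aa_pos z).le) z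
    · exact le_rfl
  mem := fun α' β' => by
    split_ifs
    · exact R1_mem aa_mem_D1
    · exact lsub_D12.zero
  fin := (Set.toFinite {R1 aa, 0}).subset (by
    rintro _ ⟨p, rfl⟩
    dsimp only
    split_ifs
    · exact Or.inl rfl
    · exact Or.inr rfl)
  ctl := by
    refine ⟨{α}, ∅, small_singleton hν α, by simp, Set.subset_univ _,
      ⟨fun α' => ?_, fun β' => ?_, ?_⟩⟩
    · by_cases h : α' = α
      · refine ⟨aa, aa_mem_D1, fun z => (aa_pos z).le, fun β' hβ' => ?_⟩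
        rw [if_pos h]
        exact Eqv.refl _
      · refine ⟨0, lsub_D1.zero, fun _ => le_rfl, fun β' hβ' => ?_⟩
        rw [if_neg h]
        exact eqv_zero_R1
    · refine ⟨0, lsub_D2.zero, fun _ => le_rfl, fun α' hα' => ?_⟩
      rw [if_neg (show ¬ α' = α from hα')]
      exact eqv_zero_R2
    · refine ⟨0, le_rfl, fun α' hα' β' hβ' => ?_⟩
      rw [if_neg (show ¬ α' = α from hα')]
      exact Eqv.refl _

open Classical in
theorem isFam_col (hν : ℵ₀ ≤ ν) (β : μ) :
    IsFam ν (Set.univ : Set μ) (fun (_ : κ) β' => if β' = β then R2 bb else 0) where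
  nonneg := fun α' β' z => by
    split_ifs
    · exact R2_nonneg (fun z => (bb_pos z).le) z
    · exact le_rfl
  mem := fun α' β' => by
    split_ifs
    · exact R2_mem bb_mem_D2
    · exact lsub_D12.zero
  fin := (Set.toFinite {R2 bb, 0}).subset (by
    rintro _ ⟨p, rfl⟩
    dsimp only
    split_ifs
    · exact Or.inl rfl
    · exact Or.inr rfl)
  ctl := by
    refine ⟨∅, {β}, by simp, small_singleton hν β, Set.subset_univ _,
      ⟨fun α' => ?_, fun β' => ?_, ?_⟩⟩
    · refine ⟨0, lsub_D1.zero, fun _ => le_rfl, fun β' hβ' => ?_⟩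
      rw [if_neg (show ¬ β' = β from hβ')]
      exact eqv_zero_R1
    · by_cases h : β' = β
      · refine ⟨bb, bb_mem_D2, fun z => (bb_pos z).le, fun α' hα' => ?_⟩
        rw [if_pos h]
        exact Eqv.refl _
      · refine ⟨0, lsub_D2.zero, fun _ => le_rfl, fun α' hα' => ?_⟩
        rw [if_neg h]
        exact eqv_zero_R2
    · refine ⟨0, le_rfl, fun α' hα' β' hβ' => ?_⟩
      rw [if_neg (show ¬ β' = β from hβ')]
      exact Eqv.refl _

theorem eventually_ne (r : ℝ) (z₀ : Z0) : ∀ᶠ z in near r, z ≠ z₀ := by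
  have h1 : ∀ᶠ z : Z0 in near r, z₀.2 < z.2 :=
    (Filter.tendsto_snd (f := nhds r) (g := Filter.atTop)).eventually
      (Filter.eventually_gt_atTop z₀.2)
  filter_upwards [h1] with z hz h
  rw [h] at hz
  exact lt_irrefl _ hz

open Classical in
theorem coatom_mem (z₀ : Z) : (fun z : Z => if z = z₀ then (0 : ℝ) else 1) ∈ D12 := by
  refine ⟨⟨1, fun z => ?_⟩, fun s r _ => ?_⟩
  · dsimp only
    split_ifs <;> simp
  · refine ⟨_, ⟨1, 0, 0, rfl⟩, ?_⟩
    filter_upwards [eventually_ne r z₀.1] with z hz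
    rw [if_neg fun h => hz (congrArg Prod.fst h)]
    simp

open Classical in
theorem atom_mem (z₀ : Z) : (fun z : Z => if z = z₀ then (1 : ℝ) else 0) ∈ D12 := by
  refine ⟨⟨1, fun z => ?_⟩, fun s r _ => ?_⟩
  · dsimp only
    split_ifs <;> simp
  · refine ⟨_, ⟨0, 0, 0, rfl⟩, ?_⟩
    filter_upwards [eventually_ne r z₀.1] with z hz
    rw [if_neg fun h => hz (congrArg Prod.fst h)]
    simp

open Classical in
theorem isFam_coatom (hν : ℵ₀ ≤ ν) (α : κ) (β : μ) (z₀ : Z) :
    IsFam ν Set.univ (fun α' β' => if α' = α ∧ β' = β then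
      (fun z : Z => if z = z₀ then (0 : ℝ) else 1) else fun _ => 1) where
  nonneg := fun α' β' z => by
    split_ifs
    · dsimp only
      split_ifs <;> norm_num
    · exact zero_le_one
  mem := fun α' β' => by
    split_ifs
    · exact coatom_mem z₀
    · exact R2_mem (const_mem_D2 1)
  fin := (Set.toFinite {(fun z : Z => if z = z₀ then (0 : ℝ) else 1), fun _ => 1}).subset (by
    rintro _ ⟨p, rfl⟩
    dsimp only
    by_cases h : p.1 = α ∧ p.2 = β
    · rw [if_pos h]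
      exact Or.inl rfl
    · rw [if_neg h]
      exact Or.inr rfl)
  ctl := by
    obtain ⟨S, T, -, -, -, hc⟩ := (isFam_const ν κ (Set.univ : Set μ) (zero_le_one (α := ℝ))).ctl
    have hR : Eqv (fun _ : Z => (1 : ℝ)) (R1 fun _ => 1) := by
      constructor
      · refine Dom.of_le fun z => ?_
        have := one_le_tv z.2
        simp only [R1]
        linarith
      · refine ⟨2, fun z => ?_⟩
        have := tv_le_two z.2
        simp only [R1]
        push_cast
        linarith [one_le_tv z.2]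
    refine ⟨{α}, {β}, small_singleton hν α, small_singleton hν β, Set.subset_univ _,
      ⟨fun α' => ?_, fun β' => ?_, ?_⟩⟩
    · refine ⟨_, const_mem_D1 1, fun _ => zero_le_one, fun β' hβ' => ?_⟩
      rw [if_neg fun h => hβ' h.2]
      exact hR
    · refine ⟨_, const_mem_D2 1, fun _ => zero_le_one, fun α' hα' => ?_⟩
      rw [if_neg fun h => hα' h.1]
      exact Eqv.refl _
    · refine ⟨1, zero_le_one, fun α' hα' β' hβ' => ?_⟩
      rw [if_neg fun h => hα' h.1]
      exact Eqv.refl _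

end

section
set_option linter.unusedSectionVars false
variable {G : Type u} [AddCommGroup G] [Lattice G] [IsOrderedAddMonoid G]

theorem inf_add_le' {a b c : G} (ha : 0 ≤ a) (hb : 0 ≤ b) (hc : 0 ≤ c) :
    a ⊓ (b + c) ≤ a ⊓ b + a ⊓ c := by
  rw [add_inf, inf_add, inf_add]
  refine le_inf (le_inf ?_ ?_) (le_inf ?_ ?_)
  · exact inf_le_left.trans (le_add_of_nonneg_left ha)
  · exact inf_le_left.trans (le_add_of_nonneg_left hb)
  · exact inf_le_left.trans (le_add_of_nonneg_right hc)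
  · exact inf_le_right

theorem inf_nsmul_zero {a b : G} (ha : 0 ≤ a) (hb : 0 ≤ b) (h : a ⊓ b = 0) (n : ℕ) :
    a ⊓ (n • b) = 0 := by
  induction n with
  | zero => rw [zero_nsmul]; exact inf_eq_right.2 ha
  | succ n ih =>
    refine le_antisymm ?_ (le_inf ha (nsmul_nonneg hb _))
    rw [succ_nsmul]
    refine (inf_add_le' ha (nsmul_nonneg hb n) hb).trans ?_
    rw [ih, h, add_zero]

theorem inf_nsmul_nsmul_zero {a b : G} (ha : 0 ≤ a) (hb : 0 ≤ b) (h : a ⊓ b = 0) (m n : ℕ) :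
    (m • a) ⊓ (n • b) = 0 := by
  rw [inf_comm]
  refine inf_nsmul_zero (nsmul_nonneg hb n) ha ?_ m
  rw [inf_comm]
  exact inf_nsmul_zero ha hb h n

theorem le_of_nonneg {x y : G} (hx : 0 ≤ x) (hy : 0 ≤ y) : Le x y ↔ ∃ n : ℕ, x ≤ n • y := by
  unfold Le
  rw [abs_of_nonneg hx, abs_of_nonneg hy]

theorem sup_zero_inf (x : G) : (x ⊔ 0) ⊓ (-x ⊔ 0) = 0 := posPart_inf_negPart_eq_zero x

variable {κ μ : Type u} {ν : Cardinal.{u}} {f : G → Fam ν κ (Set.univ : Set μ)} (hf : Rp f)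
include hf

theorem Rp.zero (α : κ) (β : μ) (z : Z) : (f 0).1 α β z = 0 := by
  obtain ⟨x, -, h1, -⟩ := hf.surj ⟨_, isFam_const ν κ (Set.univ : Set μ) le_rfl⟩
  have h2 : f 0 ≤ f x := (hf.le _ _).2 (Le.zero x)
  exact ((h2.trans h1) α β).eq_zero ((f 0).2.nonneg α β) rfl

theorem Rp.mono {x y : G} (hx : 0 ≤ x) (h : x ≤ y) : f x ≤ f y :=
  (hf.le _ _).2 ((le_of_nonneg hx (hx.trans h)).2 ⟨1, by rwa [one_nsmul]⟩)

theorem Rp.disjoint {x y : G} (hν : ℵ₀ ≤ ν) (hx : 0 ≤ x) (hy : 0 ≤ y) (h : x ⊓ y = 0) (α : κ)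
    (β : μ) (z : Z) (h1 : 0 < (f x).1 α β z) : ¬ 0 < (f y).1 α β z := by
  intro h2
  obtain ⟨w, hw, h3, h4⟩ := hf.surj ((f x).ip hν (f y))
  have h5 := (hf.le _ _).1 (h3.trans (Fam.ip_le_left hν _ _))
  have h6 := (hf.le _ _).1 (h3.trans (Fam.ip_le_right hν _ _))
  obtain ⟨n, hn⟩ := (le_of_nonneg hw hx).1 h5
  obtain ⟨m, hm⟩ := (le_of_nonneg hw hy).1 h6
  have h7 : w ≤ 0 := (le_inf hn hm).trans (inf_nsmul_nsmul_zero hx hy h n m).le
  have h8 : w = 0 := le_antisymm h7 hw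
  subst h8
  have h9 : 0 < ((f x).ip hν (f y)).1 α β z := lt_min h1 h2
  exact ((h4 α β).pos ((f 0).2.nonneg α β) h9).ne' (hf.zero α β z)

/-- The element is positive at the point. -/
def Pos (f : G → Fam ν κ (Set.univ : Set μ)) (α : κ) (β : μ) (z : Z) (x : G) : Prop :=
  0 < (f (x ⊔ 0)).1 α β z

variable {α : κ} {β : μ} {z : Z}

theorem Rp.pos_iff {x : G} (hx : 0 ≤ x) : Pos f α β z x ↔ 0 < (f x).1 α β z := by
  unfold Pos
  rw [sup_eq_left.2 hx]

theorem Rp.pos_mono {x y : G} (h : x ≤ y) (hx : Pos f α β z x) : Pos f α β z y :=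
  (hf.mono le_sup_right (sup_le_sup_right h 0) α β).pos ((f _).2.nonneg α β) hx

theorem Rp.not_pos_of_le {x : G} (h : x ≤ 0) : ¬ Pos f α β z x := fun hx => by
  have h1 := hf.pos_mono h hx
  rw [hf.pos_iff le_rfl, hf.zero] at h1
  exact lt_irrefl _ h1

theorem Rp.pos_neg (hν : ℵ₀ ≤ ν) {x : G} (hx : Pos f α β z x) : ¬ Pos f α β z (-x) :=
  hf.disjoint hν le_sup_right le_sup_right (sup_zero_inf x) α β z hx

theorem Rp.pos_add_or (hν : ℵ₀ ≤ ν) {x y : G} (h : Pos f α β z (x + y)) :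
    Pos f α β z x ∨ Pos f α β z y := by
  obtain ⟨w, hw, h3, h4⟩ := hf.surj ((f (x ⊔ 0)).sp hν (f (y ⊔ 0)))
  have h5 := (hf.le _ _).1 ((Fam.le_sp_left hν _ _).trans h4)
  have h6 := (hf.le _ _).1 ((Fam.le_sp_right hν _ _).trans h4)
  obtain ⟨n, hn⟩ := (le_of_nonneg le_sup_right hw).1 h5
  obtain ⟨m, hm⟩ := (le_of_nonneg le_sup_right hw).1 h6
  have h7 : (x + y) ⊔ 0 ≤ (n + m) • w := by
    rw [add_nsmul]
    exact sup_le (add_le_add (le_sup_left.trans hn) (le_sup_left.trans hm))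
      (add_nonneg (nsmul_nonneg hw n) (nsmul_nonneg hw m))
  have h8 : f ((x + y) ⊔ 0) ≤ f w := (hf.le _ _).2 ((le_of_nonneg le_sup_right hw).2 ⟨_, h7⟩)
  have h9 : 0 < ((f (x ⊔ 0)).sp hν (f (y ⊔ 0))).1 α β z :=
    ((h8.trans h3) α β).pos (((f (x ⊔ 0)).sp hν (f (y ⊔ 0))).2.nonneg α β) h
  exact lt_max_iff.1 h9

theorem Rp.pos_add (hν : ℵ₀ ≤ ν) {x y : G} (hx : Pos f α β z x) (hy : Pos f α β z y) :
    Pos f α β z (x + y) := by
  have h1 : x = (x + y) + -y := by abel
  rw [h1] at hx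
  exact (hf.pos_add_or hν hx).resolve_right (hf.pos_neg hν hy)

theorem Rp.pos_of_nsmul (hν : ℵ₀ ≤ ν) {x : G} {n : ℕ} (h : Pos f α β z (n • x)) :
    Pos f α β z x := by
  induction n with
  | zero =>
    rw [zero_nsmul] at h
    exact absurd h (hf.not_pos_of_le le_rfl)
  | succ n ih =>
    rw [succ_nsmul] at h
    exact (hf.pos_add_or hν h).elim ih id

theorem Rp.le_zero {x : G} (h : ∀ α β z, ¬ Pos f α β z x) : x ≤ 0 := by
  have h1 : f (x ⊔ 0) ≤ f 0 := fun α β => Dom.of_le fun z => by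
    rw [hf.zero]
    exact not_lt.1 (h α β z)
  obtain ⟨n, hn⟩ := (le_of_nonneg le_sup_right le_rfl).1 ((hf.le _ _).1 h1)
  rw [nsmul_zero] at hn
  exact le_sup_left.trans hn

variable {e : G} (he : 0 ≤ e) (hu : ∀ x : G, ∃ n : ℕ, 1 ≤ n ∧ x ≤ n • e)
include he hu

theorem Rp.le_unit (x : G) : Le x e := by
  obtain ⟨n, -, hn⟩ := hu |x|
  refine ⟨n, ?_⟩
  rwa [abs_of_nonneg he]

theorem Rp.pos_unit : Pos f α β z e := by
  rw [hf.pos_iff he]
  obtain ⟨x, hx, h1, h2⟩ := hf.surj ⟨_, isFam_const ν κ (Set.univ : Set μ) (zero_le_one (α := ℝ))⟩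
  have h3 := h2.trans ((hf.le x e).2 (hf.le_unit he hu x))
  exact (h3 α β).pos ((f e).2.nonneg α β) (show (0 : ℝ) < 1 from one_pos)

theorem Rp.arch (hν : ℵ₀ ≤ ν) {w : G} (hw : Pos f α β z w) : ∃ k : ℕ, ¬ Pos f α β z (e - k • w) := by
  classical
  obtain ⟨p, hp, hp1, hp2⟩ := hf.surj ⟨_, isFam_single hν α β (atom_mem z) (fun z' => by
    split_ifs <;> norm_num)⟩
  obtain ⟨q, hq, hq1, hq2⟩ := hf.surj ⟨_, isFam_coatom hν α β z⟩
  have hqz : ¬ Pos f α β z q := by
    rw [hf.pos_iff hq]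
    intro h
    have h1 := (hq1 α β).pos ((isFam_coatom (ν := ν) hν α β z).nonneg α β) h
    simp at h1
  -- `p` is dominated by the positive part of `w`
  have h1 : f p ≤ f (w ⊔ 0) := by
    refine hp1.trans fun α' β' => ?_
    by_cases h : α' = α ∧ β' = β
    · obtain ⟨rfl, rfl⟩ := h
      obtain ⟨n, hn⟩ := exists_nat_gt (1 / (f (w ⊔ 0)).1 α' β' z)
      refine ⟨n, fun z' => ?_⟩
      have h2 := (f (w ⊔ 0)).2.nonneg α' β' z'
      simp only [and_self, if_true]
      split_ifs with hz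
      · rw [hz]
        rw [div_lt_iff₀ hw] at hn
        exact hn.le
      · positivity
    · refine ⟨0, fun z' => ?_⟩
      simp only [if_neg h]
      simp
  obtain ⟨k, hk⟩ := (le_of_nonneg hp le_sup_right).1 ((hf.le _ _).1 h1)
  -- `e` is dominated by `p + q`
  have h2 : f e ≤ f (p + q) := by
    have h3 : f e ≤ ⟨_, isFam_const ν κ (Set.univ : Set μ) (zero_le_one (α := ℝ))⟩ := by
      intro α' β'
      obtain ⟨K, hK⟩ := ((f e).2.mem α' β').1
      obtain ⟨n, hn⟩ := exists_nat_gt K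
      refine ⟨n, fun z' => ?_⟩
      simp only [mul_one]
      exact ((le_abs_self _).trans (hK z')).trans hn.le
    refine h3.trans ?_
    have h4 : f p ≤ f (p + q) := hf.mono hp (le_add_of_nonneg_right hq)
    have h5 : f q ≤ f (p + q) := hf.mono hq (le_add_of_nonneg_left hp)
    have h6 := Fam.sp_le hν (hp2.trans h4) (hq2.trans h5)
    refine le_trans ?_ h6
    intro α' β'
    refine Dom.of_le fun z' => ?_
    by_cases h : α' = α ∧ β' = β
    · simp only [Fam.sp, Pi.sup_apply, if_pos h]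
      by_cases hz : z' = z <;> simp [hz]
    · simp only [Fam.sp, Pi.sup_apply, if_neg h]
      simp
  obtain ⟨n, hn⟩ := (le_of_nonneg he (add_nonneg hp hq)).1 ((hf.le _ _).1 h2)
  refine ⟨n * k, fun h => ?_⟩
  -- the negative part of `w` vanishes at the point
  have h3 : ¬ Pos f α β z (-w ⊔ 0) := by
    rw [hf.pos_iff le_sup_right]
    exact hf.pos_neg hν hw
  have h4 : e - (n * k) • w ≤ n • q + n • (k • (-w ⊔ 0)) := by
    have h5 : w ⊔ 0 = w + (-w ⊔ 0) := by
      rw [add_sup, add_neg_cancel, add_zero, sup_comm]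
    have h6 : p ≤ k • w + k • (-w ⊔ 0) := by
      rw [← nsmul_add, ← h5]
      exact hk
    calc e - (n * k) • w ≤ n • (p + q) - (n * k) • w := sub_le_sub_right hn _
      _ = n • p + n • q - (n * k) • w := by rw [nsmul_add]
      _ ≤ n • (k • w + k • (-w ⊔ 0)) + n • q - (n * k) • w :=
          sub_le_sub_right (add_le_add_left (nsmul_le_nsmul_right h6 n) _) _
      _ = n • q + n • (k • (-w ⊔ 0)) := by
          rw [nsmul_add, ← mul_nsmul' w n k]
          abel
  rcases hf.pos_add_or hν (hf.pos_mono h4 h) with h7 | h7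
  · exact hqz (hf.pos_of_nsmul hν h7)
  · exact h3 (hf.pos_of_nsmul hν (hf.pos_of_nsmul hν h7))

/-- Between two elements there is a multiple of the unit. -/
theorem Rp.between (hν : ℵ₀ ≤ ν) {x y : G} (hy : 0 ≤ y) (h : Pos f α β z (x - y)) :
    ∃ n m : ℕ, Pos f α β z (m • e - n • y) ∧ Pos f α β z (n • x - m • e) := by
  classical
  obtain ⟨k, hk⟩ := hf.arch he hu hν h
  have hex : ∃ m : ℕ, Pos f α β z (m • e - (2 * k) • y) := by
    obtain ⟨K, -, hK⟩ := hu ((2 * k) • y)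
    refine ⟨K + 1, hf.pos_mono ?_ (hf.pos_unit he hu)⟩
    rw [add_nsmul, one_nsmul, le_sub_iff_add_le, add_comm]
    exact add_le_add_left hK e
  have h0 : Nat.find hex ≠ 0 := by
    intro h0
    have h1 := Nat.find_spec hex
    rw [h0, zero_nsmul, zero_sub] at h1
    exact hf.not_pos_of_le (neg_nonpos.2 (nsmul_nonneg hy _)) h1
  obtain ⟨m, hm⟩ := Nat.exists_eq_succ_of_ne_zero h0
  have h1 : Pos f α β z ((m + 1) • e - (2 * k) • y) := by
    have := Nat.find_spec hex
    rwa [hm] at this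
  have h2 : ¬ Pos f α β z (m • e - (2 * k) • y) := Nat.find_min hex (by rw [hm]; exact Nat.lt_succ_self m)
  refine ⟨2 * k, m + 1, h1, ?_⟩
  have h3 : e = ((2 * k) • x - (m + 1) • e) + (2 • (e - k • (x - y)) + (m • e - (2 * k) • y)) := by
    rw [add_nsmul, one_nsmul, nsmul_sub, nsmul_sub, nsmul_sub, ← mul_nsmul' _ 2 k,
      ← mul_nsmul' _ 2 k, two_nsmul]
    abel
  have h4 : Pos f α β z e := hf.pos_unit he hu
  rw [h3] at h4
  rcases hf.pos_add_or hν h4 with h5 | h5
  · exact h5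
  · rcases hf.pos_add_or hν h5 with h6 | h6
    · exact absurd (hf.pos_of_nsmul hν h6) hk
    · exact absurd h6 h2

end

end Pool.Agent.Q216.WL
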